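import Pool.Agent.Lib_helper59.HT.Defs2

set_option autoImplicit false

open Finset Matrix

namespace Pool.Agent.HT

open Classical in
/-- `C0` covers the edge exactly once -/
def c5_once {n : ℕ} (C0 : Finset (Finset (Fin n))) (e : Finset (Fin n)) : Prop :=
  e.card = 2 ∧ (C0.filter (fun t => e ⊆ t)).card = 1

open Classical in
/-- canonical exploration edge -/
noncomputable def c5_ed {n : ℕ} (C0 : Finset (Finset (Fin n))) : Finset (Fin n) :=
  if h : ∃ e, c5_once C0 e then h.choose else ∅

theorem c5_ed_spec {n : ℕ} {C0 : Finset (Finset (Fin n))} (h : ∃ e, c5_once C0 e) :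
    c5_once C0 (c5_ed C0) := by
  unfold c5_ed
  rw [dif_pos h]
  exact h.choose_spec

/-- saving vertices -/
def c5_save {n : ℕ} (H : Finset (Fin n)) (C0 : Finset (Finset (Fin n))) (x : Fin n) : Prop :=
  x ∈ H ∨ ∃ w ∈ c5_ed C0, w ∉ H ∧ sk C0 w x

open Classical in
/-- reachability in `j` steps with `s` savings -/
noncomputable def c5_R {n : ℕ} (H : Finset (Fin n)) (C : Finset (Finset (Fin n))) :
    ℕ → ℕ → Finset (Finset (Fin n)) → Prop
  | 0, s, C0 => C0 = C ∧ s = 0
  | (j + 1), s, C0 => ∃ x, x ∉ c5_ed C0 ∧ insert x (c5_ed C0) ∈ C ∧ insert x (c5_ed C0) ∉ C0 ∧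
      ((c5_save H C0 x ∧ ∃ s', s = s' + 1 ∧ c5_R H C j s' (insert (insert x (c5_ed C0)) C0)) ∨
        (¬ c5_save H C0 x ∧ c5_R H C j s (insert (insert x (c5_ed C0)) C0)))

theorem c5_R_sub {n : ℕ} (H : Finset (Fin n)) (C : Finset (Finset (Fin n))) :
    ∀ (j s : ℕ) (C0 : Finset (Finset (Fin n))), c5_R H C j s C0 → C0 ⊆ C := by
  intro j
  induction j with
  | zero =>
    intro s C0 h
    exact h.1 ▸ Finset.Subset.refl _
  | succ j ih =>
    intro s C0 h
    obtain ⟨x, -, -, -, h | h⟩ := h
    · obtain ⟨-, s', -, h⟩ := h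
      exact (Finset.subset_insert _ _).trans (ih _ _ h)
    · exact (Finset.subset_insert _ _).trans (ih _ _ h.2)

theorem c5_sk_mono {n : ℕ} {C0 C : Finset (Finset (Fin n))} (h : C0 ⊆ C) {w x : Fin n}
    (hs : sk C0 w x) : sk C w x := by
  obtain ⟨h1, t, ht, h2⟩ := hs
  exact ⟨h1, t, h ht, h2⟩

theorem c5_ed_card {n : ℕ} (C0 : Finset (Finset (Fin n))) : (c5_ed C0).card ≤ 2 := by
  unfold c5_ed
  split_ifs with h
  · exact h.choose_spec.1.le
  · simp

open Classical in
/-- number of saving vertices -/
theorem c5_save_card {n D : ℕ} (H : Finset (Fin n)) {C0 C : Finset (Finset (Fin n))}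
    (h : C0 ⊆ C) (hD : ∀ w, w ∉ H → cnt (fun x => sk C w x) ≤ D) :
    (univ.filter (fun x => c5_save H C0 x)).card ≤ H.card + 2 * D := by
  have h1 : univ.filter (fun x => c5_save H C0 x) ⊆
      H ∪ ((c5_ed C0).filter (fun w => w ∉ H)).biUnion
        (fun w => univ.filter (fun x => sk C w x)) := by
    intro x hx
    rw [Finset.mem_filter] at hx
    rw [Finset.mem_union, Finset.mem_biUnion]
    rcases hx.2 with hx | ⟨w, hw, hwH, hs⟩
    · exact Or.inl hx
    · refine Or.inr ⟨w, Finset.mem_filter.2 ⟨hw, hwH⟩, ?_⟩
      exact Finset.mem_filter.2 ⟨Finset.mem_univ _, c5_sk_mono h hs⟩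
  refine (Finset.card_le_card h1).trans ((Finset.card_union_le _ _).trans ?_)
  refine Nat.add_le_add_left ?_ _
  refine (Finset.card_biUnion_le).trans ?_
  calc ∑ w ∈ (c5_ed C0).filter (fun w => w ∉ H), (univ.filter (fun x => sk C w x)).card
      ≤ ∑ w ∈ (c5_ed C0).filter (fun w => w ∉ H), D := by
        refine Finset.sum_le_sum (fun w hw => ?_)
        exact hD w (Finset.mem_filter.1 hw).2
    _ = ((c5_ed C0).filter (fun w => w ∉ H)).card * D := by rw [Finset.sum_const, smul_eq_mul]
    _ ≤ 2 * D := Nat.mul_le_mul_right _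
        ((Finset.card_filter_le _ _).trans (c5_ed_card C0))

open Classical in
/-- the counting bound -/
theorem c5_count {n D : ℕ} (H : Finset (Fin n)) (G : Finset (Finset (Finset (Fin n))))
    (hG : ∀ C ∈ G, ∀ w, w ∉ H → cnt (fun x => sk C w x) ≤ D) :
    ∀ (j s : ℕ) (C0 : Finset (Finset (Fin n))),
      (G.filter (fun C => c5_R H C j s C0)).card ≤
        j.choose s * n ^ (j - s) * (H.card + 2 * D) ^ s := by
  intro j
  induction j with
  | zero =>
    intro s C0
    cases s with
    | zero =>
      have : G.filter (fun C => c5_R H C 0 0 C0) ⊆ {C0} := by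
        intro C hC
        rw [Finset.mem_filter] at hC
        rw [Finset.mem_singleton]
        exact hC.2.1.symm
      simpa using Finset.card_le_card this
    | succ s =>
      have : G.filter (fun C => c5_R H C 0 (s + 1) C0) = ∅ := by
        rw [Finset.filter_eq_empty_iff]
        intro C _ hC
        exact absurd hC.2 (Nat.succ_ne_zero s)
      rw [this]
      simp
  | succ j ih =>
    intro s C0
    set S := H.card + 2 * D with hS
    by_cases hne : (G.filter (fun C => c5_R H C (j + 1) s C0)).Nonempty
    swap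
    · rw [Finset.not_nonempty_iff_eq_empty] at hne
      rw [hne]
      simp
    obtain ⟨C, hC⟩ := hne
    rw [Finset.mem_filter] at hC
    have hsub := c5_R_sub H C _ _ _ hC.2
    have hsave : (univ.filter (fun x => c5_save H C0 x)).card ≤ S :=
      c5_save_card H hsub (hG C hC.1)
    have hcov : G.filter (fun C => c5_R H C (j + 1) s C0) ⊆
        (univ : Finset (Fin n)).biUnion (fun x =>
          G.filter (fun C => c5_R H C j s (insert (insert x (c5_ed C0)) C0))) ∪
        (univ.filter (fun x => c5_save H C0 x)).biUnion (fun x =>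
          G.filter (fun C => 1 ≤ s ∧ c5_R H C j (s - 1) (insert (insert x (c5_ed C0)) C0))) := by
      intro C' hC'
      rw [Finset.mem_filter] at hC'
      obtain ⟨hC'G, x, -, -, -, h | h⟩ := hC'
      · obtain ⟨hsv, s', rfl, h⟩ := h
        refine Finset.mem_union_right _ ?_
        rw [Finset.mem_biUnion]
        refine ⟨x, Finset.mem_filter.2 ⟨Finset.mem_univ _, hsv⟩, ?_⟩
        rw [Finset.mem_filter]
        refine ⟨hC'G, by omega, ?_⟩
        simpa using h
      · refine Finset.mem_union_left _ ?_
        rw [Finset.mem_biUnion]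
        exact ⟨x, Finset.mem_univ _, Finset.mem_filter.2 ⟨hC'G, h.2⟩⟩
    refine (Finset.card_le_card hcov).trans ((Finset.card_union_le _ _).trans ?_)
    have hA : ((univ : Finset (Fin n)).biUnion (fun x =>
          G.filter (fun C => c5_R H C j s (insert (insert x (c5_ed C0)) C0)))).card ≤
        n * (j.choose s * n ^ (j - s) * S ^ s) := by
      refine Finset.card_biUnion_le.trans ?_
      calc _ ≤ ∑ _x : Fin n, (j.choose s * n ^ (j - s) * S ^ s) :=
            Finset.sum_le_sum (fun x _ => ih s _)
        _ = _ := by simp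
    cases s with
    | zero =>
      have hB : ((univ.filter (fun x => c5_save H C0 x)).biUnion (fun x =>
          G.filter (fun C => 1 ≤ 0 ∧ c5_R H C j (0 - 1)
            (insert (insert x (c5_ed C0)) C0)))).card = 0 := by
        rw [Finset.card_eq_zero]
        ext C'
        simp
      rw [hB, add_zero]
      refine hA.trans (le_of_eq ?_)
      simp only [Nat.choose_zero_right, Nat.sub_zero, pow_zero, one_mul, mul_one]
      rw [pow_succ]
      ring
    | succ s =>
      have hB : ((univ.filter (fun x => c5_save H C0 x)).biUnion (fun x =>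
          G.filter (fun C => 1 ≤ s + 1 ∧ c5_R H C j (s + 1 - 1)
            (insert (insert x (c5_ed C0)) C0)))).card ≤
          S * (j.choose s * n ^ (j - s) * S ^ s) := by
        refine Finset.card_biUnion_le.trans ?_
        calc _ ≤ ∑ _x ∈ univ.filter (fun x => c5_save H C0 x),
                (j.choose s * n ^ (j - s) * S ^ s) := by
              refine Finset.sum_le_sum (fun x _ => ?_)
              refine (Finset.card_le_card ?_).trans (ih s (insert (insert x (c5_ed C0)) C0))
              intro C' hC'
              rw [Finset.mem_filter] at hC' ⊢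
              exact ⟨hC'.1, by simpa using hC'.2.2⟩
          _ = (univ.filter (fun x => c5_save H C0 x)).card *
                (j.choose s * n ^ (j - s) * S ^ s) := by
              rw [Finset.sum_const, smul_eq_mul]
          _ ≤ _ := Nat.mul_le_mul_right _ hsave
      refine (Nat.add_le_add hA hB).trans (le_of_eq ?_)
      have e1 : j + 1 - (s + 1) = j - s := by omega
      rw [e1, Nat.choose_succ_succ]
      by_cases hjs : s + 1 ≤ j
      · have e2 : n * n ^ (j - (s + 1)) = n ^ (j - s) := by
          rw [← pow_succ']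
          congr 1
          omega
        calc n * (j.choose (s + 1) * n ^ (j - (s + 1)) * S ^ (s + 1)) +
              S * (j.choose s * n ^ (j - s) * S ^ s)
            = j.choose (s + 1) * (n * n ^ (j - (s + 1))) * S ^ (s + 1) +
              j.choose s * n ^ (j - s) * (S ^ s * S) := by ring
          _ = _ := by rw [e2, ← pow_succ]; ring
      · have e3 : j.choose (s + 1) = 0 := Nat.choose_eq_zero_of_lt (by omega)
        rw [e3]
        ring

/-- light sides -/
def c5_LL {n : ℕ} (H t : Finset (Fin n)) : Finset (Finset (Fin n)) := (t \ H).powersetCard 2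

/-- potential -/
def c5_phi {n : ℕ} (H : Finset (Fin n)) (C0 : Finset (Finset (Fin n))) : ℤ :=
  2 * ((C0.biUnion (c5_LL H)).card : ℤ) - ∑ t ∈ C0, ((c5_LL H t).card : ℤ)

/-- unused heavy edges -/
def c5_U {n : ℕ} (H : Finset (Fin n)) (C0 : Finset (Finset (Fin n))) : ℕ :=
  ((H.powersetCard 2).filter (fun e => (C0.filter (fun t => e ⊆ t)).card ≤ 1)).card

theorem c5_phi_closed {n : ℕ} (H : Finset (Fin n)) {C : Finset (Finset (Fin n))} (hC : Cl C) :
    c5_phi H C ≤ 0 := by
  unfold c5_phi
  have h1 : 2 * (C.biUnion (c5_LL H)).card ≤ ∑ t ∈ C, (c5_LL H t).card := by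
    have h2 : ∑ t ∈ C, (c5_LL H t).card =
        ∑ e ∈ C.biUnion (c5_LL H), (C.filter (fun t => e ∈ c5_LL H t)).card := by
      have h3 : ∀ t ∈ C, (c5_LL H t).card =
          ∑ e ∈ C.biUnion (c5_LL H), if e ∈ c5_LL H t then 1 else 0 := by
        intro t ht
        rw [← Finset.sum_filter, Finset.sum_const, smul_eq_mul, mul_one]
        congr 1
        ext e
        rw [Finset.mem_filter, Finset.mem_biUnion]
        constructor
        · intro h
          exact ⟨⟨t, ht, h⟩, h⟩
        · intro h
          exact h.2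
      rw [Finset.sum_congr rfl h3, Finset.sum_comm]
      refine Finset.sum_congr rfl (fun e _ => ?_)
      rw [← Finset.sum_filter, Finset.sum_const, smul_eq_mul, mul_one]
    rw [h2, mul_comm, ← smul_eq_mul, ← Finset.sum_const]
    refine Finset.sum_le_sum (fun e he => ?_)
    rw [Finset.mem_biUnion] at he
    obtain ⟨t, ht, he⟩ := he
    have he' := he
    unfold c5_LL at he'
    rw [Finset.mem_powersetCard] at he'
    obtain ⟨t', ht', hne, hsub⟩ := hC.2.2 t ht e (he'.1.trans Finset.sdiff_subset) he'.2
    have he2 : e ∈ c5_LL H t' := by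
      unfold c5_LL
      rw [Finset.mem_powersetCard]
      refine ⟨?_, he'.2⟩
      intro y hy
      rw [Finset.mem_sdiff]
      exact ⟨hsub hy, (Finset.mem_sdiff.1 (he'.1 hy)).2⟩
    have h4 : ({t, t'} : Finset (Finset (Fin n))) ⊆ C.filter (fun t => e ∈ c5_LL H t) := by
      intro y hy
      rw [Finset.mem_insert, Finset.mem_singleton] at hy
      rw [Finset.mem_filter]
      rcases hy with rfl | rfl
      · exact ⟨ht, he⟩
      · exact ⟨ht', he2⟩
    have h5 := Finset.card_le_card h4
    rwa [Finset.card_pair (Ne.symm hne)] at h5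
  have h6 : (2 * (C.biUnion (c5_LL H)).card : ℤ) ≤ ∑ t ∈ C, ((c5_LL H t).card : ℤ) := by
    exact_mod_cast h1
  linarith

theorem c5_exists_once {n : ℕ} {C C0 : Finset (Finset (Fin n))} (hC : MinCl C) (h0 : C0 ⊆ C)
    (hne : C0.Nonempty) (hneq : C0 ≠ C) : ∃ e, c5_once C0 e := by
  by_contra hcon
  apply hneq
  apply hC.2 C0 h0
  refine ⟨hne, fun t ht => hC.1.2.1 t (h0 ht), ?_⟩
  intro t ht e he hcard
  by_contra hno
  apply hcon
  refine ⟨e, hcard, ?_⟩
  rw [Finset.card_eq_one]
  refine ⟨t, ?_⟩
  ext t'
  rw [Finset.mem_filter, Finset.mem_singleton]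
  constructor
  · rintro ⟨h1, h2⟩
    by_contra h3
    exact hno ⟨t', h1, h3, h2⟩
  · rintro rfl
    exact ⟨ht, he⟩

theorem c5_U_mono {n : ℕ} (H : Finset (Fin n)) {C0 C1 : Finset (Finset (Fin n))} (h : C0 ⊆ C1) :
    c5_U H C1 ≤ c5_U H C0 := by
  unfold c5_U
  refine Finset.card_le_card ?_
  intro e he
  rw [Finset.mem_filter] at he ⊢
  refine ⟨he.1, le_trans (Finset.card_le_card ?_) he.2⟩
  exact Finset.filter_subset_filter _ h

theorem c5_main {n : ℕ} (H : Finset (Fin n)) {C : Finset (Finset (Fin n))} (hC : MinCl C) :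
    ∀ (j : ℕ) (C0 : Finset (Finset (Fin n))), C0 ⊆ C → C0.Nonempty → C.card = C0.card + j →
      ∃ s : ℕ, c5_R H C j s C0 ∧ (j : ℤ) + c5_phi H C0 ≤ 4 * s + c5_U H C0 := by
  intro j
  induction j with
  | zero =>
    intro C0 h0 hne hcard
    have heq : C0 = C := Finset.eq_of_subset_of_card_le h0 (by omega)
    subst heq
    refine ⟨0, ⟨rfl, rfl⟩, ?_⟩
    have := c5_phi_closed H hC.1
    push_cast
    have h2 : (0 : ℤ) ≤ c5_U H C0 := Int.natCast_nonneg _
    linarith
  | succ j ih =>
    intro C0 h0 hne hcard
    have hneq : C0 ≠ C := by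
      rintro rfl
      omega
    have hex := c5_exists_once hC h0 hne hneq
    obtain ⟨hec, hone⟩ := c5_ed_spec hex
    set e := c5_ed C0 with he
    rw [Finset.card_eq_one] at hone
    obtain ⟨t, ht⟩ := hone
    have htm : t ∈ C0.filter (fun t => e ⊆ t) := by rw [ht]; exact Finset.mem_singleton_self t
    rw [Finset.mem_filter] at htm
    obtain ⟨t', ht', htne, hsub⟩ := hC.1.2.2 t (h0 htm.1) e htm.2 hec
    have ht'0 : t' ∉ C0 := by
      intro hmem
      have : t' ∈ C0.filter (fun t => e ⊆ t) := Finset.mem_filter.2 ⟨hmem, hsub⟩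
      rw [ht, Finset.mem_singleton] at this
      exact htne this
    have ht'3 := hC.1.2.1 t' ht'
    obtain ⟨x, hx, hxt⟩ := Finset.exists_eq_insert_iff.2 ⟨hsub, by rw [hec, ht'3]⟩
    subst hxt
    set C1 := insert (insert x e) C0 with hC1
    have h01 : C0 ⊆ C1 := Finset.subset_insert _ _
    have h1 : C1 ⊆ C := by
      intro y hy
      rw [hC1, Finset.mem_insert] at hy
      rcases hy with rfl | hy
      · exact ht'
      · exact h0 hy
    have hcard1 : C1.card = C0.card + 1 := Finset.card_insert_of_notMem ht'0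
    obtain ⟨s1, hs1, hineq⟩ := ih C1 h1 ⟨_, Finset.mem_insert_self _ _⟩ (by omega)
    have hU := c5_U_mono H h01
    have hsum : ∑ t ∈ C1, ((c5_LL H t).card : ℤ) =
        ((c5_LL H (insert x e)).card : ℤ) + ∑ t ∈ C0, ((c5_LL H t).card : ℤ) :=
      Finset.sum_insert ht'0
    have hcovsub : C0.biUnion (c5_LL H) ⊆ C1.biUnion (c5_LL H) :=
      Finset.biUnion_subset_biUnion_of_subset_left _ h01
    by_cases hsv : c5_save H C0 x
    · refine ⟨s1 + 1, ⟨x, hx, ht', ht'0, Or.inl ⟨hsv, s1, rfl, hs1⟩⟩, ?_⟩
      have hL : (c5_LL H (insert x e)).card ≤ 3 := by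
        unfold c5_LL
        rw [Finset.card_powersetCard]
        have h3 : (insert x e \ H).card ≤ 3 := by
          refine (Finset.card_le_card Finset.sdiff_subset).trans ?_
          rw [ht'3]
        calc (insert x e \ H).card.choose 2 ≤ Nat.choose 3 2 := Nat.choose_le_choose 2 h3
          _ = 3 := rfl
      have hphi : c5_phi H C0 - 3 ≤ c5_phi H C1 := by
        unfold c5_phi
        rw [hsum]
        have h4 : ((C0.biUnion (c5_LL H)).card : ℤ) ≤ (C1.biUnion (c5_LL H)).card := by
          exact_mod_cast Finset.card_le_card hcovsub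
        have h5 : ((c5_LL H (insert x e)).card : ℤ) ≤ 3 := by exact_mod_cast hL
        linarith
      push_cast
      have hU' : (c5_U H C1 : ℤ) ≤ c5_U H C0 := by exact_mod_cast hU
      push_cast at hineq
      linarith
    · refine ⟨s1, ⟨x, hx, ht', ht'0, Or.inr ⟨hsv, hs1⟩⟩, ?_⟩
      have hxH : x ∉ H := fun h => hsv (Or.inl h)
      have hnsk : ∀ w ∈ e, w ∉ H → ¬ sk C0 w x := fun w hw hwH h => hsv (Or.inr ⟨w, hw, hwH, h⟩)
      set j' := (e \ H).card with hj'
      have hj'2 : j' ≤ 2 := by
        rw [hj', ← hec]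
        exact Finset.card_le_card Finset.sdiff_subset
      have hxe : x ∉ e \ H := fun h => hx (Finset.mem_sdiff.1 h).1
      have hLcard : (c5_LL H (insert x e)).card = (j' + 1).choose 2 := by
        unfold c5_LL
        rw [Finset.card_powersetCard, Finset.insert_sdiff_of_notMem _ hxH,
          Finset.card_insert_of_notMem hxe]
      have hcov : (C0.biUnion (c5_LL H)).card + j' ≤ (C1.biUnion (c5_LL H)).card := by
        have hinj : ((e \ H).image (fun w => ({w, x} : Finset (Fin n)))).card = j' := by
          rw [Finset.card_image_of_injOn]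
          intro w hw w' hw' hww
          have hww' : ({w, x} : Finset (Fin n)) = {w', x} := hww
          have h6 : w ∈ ({w', x} : Finset (Fin n)) := by
            rw [← hww']
            exact Finset.mem_insert_self _ _
          rw [Finset.mem_insert, Finset.mem_singleton] at h6
          rcases h6 with h6 | h6
          · exact h6
          · exact absurd (h6 ▸ Finset.mem_coe.1 hw) hxe
        have hdisj : Disjoint (C0.biUnion (c5_LL H))
            ((e \ H).image (fun w => ({w, x} : Finset (Fin n)))) := by
          rw [Finset.disjoint_left]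
          intro y hy hy'
          rw [Finset.mem_image] at hy'
          obtain ⟨w, hw, rfl⟩ := hy'
          rw [Finset.mem_biUnion] at hy
          obtain ⟨t1, ht1, hy⟩ := hy
          unfold c5_LL at hy
          rw [Finset.mem_powersetCard] at hy
          rw [Finset.mem_sdiff] at hw
          apply hnsk w hw.1 hw.2
          refine ⟨?_, t1, ht1, ?_, ?_⟩
          · rintro rfl
            exact hx hw.1
          · exact (Finset.mem_sdiff.1 (hy.1 (Finset.mem_insert_self _ _))).1
          · exact (Finset.mem_sdiff.1 (hy.1 (Finset.mem_insert_of_mem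
              (Finset.mem_singleton_self _)))).1
        rw [← hinj, ← Finset.card_union_of_disjoint hdisj]
        refine Finset.card_le_card ?_
        refine Finset.union_subset hcovsub ?_
        intro y hy
        rw [Finset.mem_image] at hy
        obtain ⟨w, hw, rfl⟩ := hy
        rw [Finset.mem_biUnion]
        refine ⟨insert x e, Finset.mem_insert_self _ _, ?_⟩
        unfold c5_LL
        rw [Finset.mem_powersetCard]
        rw [Finset.mem_sdiff] at hw
        refine ⟨?_, ?_⟩
        · intro z hz
          rw [Finset.mem_insert, Finset.mem_singleton] at hz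
          rw [Finset.mem_sdiff, Finset.mem_insert]
          rcases hz with rfl | rfl
          · exact ⟨Or.inr hw.1, hw.2⟩
          · exact ⟨Or.inl rfl, hxH⟩
        · rw [Finset.card_pair]
          rintro rfl
          exact hx hw.1
      have hphi : c5_phi H C0 + 2 * j' - ((j' + 1).choose 2 : ℕ) ≤ c5_phi H C1 := by
        unfold c5_phi
        rw [hsum, hLcard]
        have h4 : ((C0.biUnion (c5_LL H)).card : ℤ) + j' ≤ (C1.biUnion (c5_LL H)).card := by
          exact_mod_cast hcov
        linarith
      have hU' : (c5_U H C1 : ℤ) ≤ c5_U H C0 := by exact_mod_cast hU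
      push_cast at hineq ⊢
      rcases Nat.lt_or_ge 0 j' with hpos | hzero
      · have h7 : (1 : ℤ) ≤ 2 * j' - ((j' + 1).choose 2 : ℕ) := by
          interval_cases j'
          · norm_num [Nat.choose]
          · norm_num [Nat.choose]
        linarith
      · have hj0 : j' = 0 := by omega
        have heH : e ⊆ H := by
          rw [hj', Finset.card_eq_zero, Finset.sdiff_eq_empty_iff_subset] at hj0
          exact hj0
        have hU2 : c5_U H C1 + 1 ≤ c5_U H C0 := by
          unfold c5_U
          have hss : (H.powersetCard 2).filter (fun e => (C1.filter (fun t => e ⊆ t)).card ≤ 1) ⊂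
              (H.powersetCard 2).filter (fun e => (C0.filter (fun t => e ⊆ t)).card ≤ 1) := by
            rw [Finset.ssubset_iff_of_subset]
            · refine ⟨e, ?_, ?_⟩
              · rw [Finset.mem_filter, Finset.mem_powersetCard]
                refine ⟨⟨heH, hec⟩, ?_⟩
                rw [ht, Finset.card_singleton]
              · rw [Finset.mem_filter, not_and_or]
                right
                have h8 : ({t, insert x e} : Finset (Finset (Fin n))) ⊆
                    C1.filter (fun t => e ⊆ t) := by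
                  intro y hy
                  rw [Finset.mem_insert, Finset.mem_singleton] at hy
                  rw [Finset.mem_filter]
                  rcases hy with rfl | rfl
                  · exact ⟨h01 htm.1, htm.2⟩
                  · exact ⟨Finset.mem_insert_self _ _, Finset.subset_insert _ _⟩
                have h9 := Finset.card_le_card h8
                rw [Finset.card_pair (Ne.symm htne)] at h9
                omega
            · intro y hy
              rw [Finset.mem_filter] at hy ⊢
              exact ⟨hy.1, le_trans (Finset.card_le_card (Finset.filter_subset_filter _ h01)) hy.2⟩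
          exact Finset.card_lt_card hss
        have hU3 : (c5_U H C1 : ℤ) + 1 ≤ c5_U H C0 := by exact_mod_cast hU2
        rw [hj0] at hphi
        norm_num at hphi
        linarith

/-- BLOCK C5: exploration count -/
theorem expl_count_pr (n m s D : ℕ) (H : Finset (Fin n)) (hSn : H.card + 2 * D ≤ n)
    (hs : 4 * s + H.card.choose 2 + 1 ≤ m) :
    Nat.card {C : Finset (Finset (Fin n)) // MinCl C ∧ C.card = m ∧
      ∀ w, w ∉ H → cnt (fun x => sk C w x) ≤ D} ≤
      n ^ 3 * 2 ^ m * n ^ (m - 1 - s) * (H.card + 2 * D) ^ s := by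
  classical
  set S := H.card + 2 * D with hS
  set G : Finset (Finset (Finset (Fin n))) := univ.filter (fun C => MinCl C ∧ C.card = m ∧
      ∀ w, w ∉ H → cnt (fun x => sk C w x) ≤ D) with hGdef
  have hcardG : Nat.card {C : Finset (Finset (Fin n)) // MinCl C ∧ C.card = m ∧
      ∀ w, w ∉ H → cnt (fun x => sk C w x) ≤ D} = G.card := by
    rw [Nat.card_eq_fintype_card, Fintype.card_subtype]
  rw [hcardG]
  have hGp : ∀ C ∈ G, ∀ w, w ∉ H → cnt (fun x => sk C w x) ≤ D := by
    intro C hC
    exact (Finset.mem_filter.1 hC).2.2.2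
  have hcov : G ⊆ ((univ : Finset (Fin n)).powersetCard 3).biUnion (fun σ =>
      (Finset.range m).biUnion (fun s' => if s ≤ s' then
        G.filter (fun C => c5_R H C (m - 1) s' {σ}) else ∅)) := by
    intro C hCG
    have hC := (Finset.mem_filter.1 hCG).2
    obtain ⟨σ, hσ⟩ := hC.1.1.1
    have hσ3 := hC.1.1.2.1 σ hσ
    obtain ⟨s', hR, hin⟩ := c5_main H hC.1 (m - 1) {σ} (Finset.singleton_subset_iff.2 hσ)
      (Finset.singleton_nonempty σ) (by rw [Finset.card_singleton, hC.2.1]; omega)
    have hphi : 0 ≤ c5_phi H {σ} := by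
      unfold c5_phi
      rw [Finset.singleton_biUnion, Finset.sum_singleton]
      have : (0 : ℤ) ≤ (c5_LL H σ).card := Int.natCast_nonneg _
      linarith
    have hU : c5_U H {σ} ≤ H.card.choose 2 := by
      unfold c5_U
      refine (Finset.card_filter_le _ _).trans ?_
      rw [Finset.card_powersetCard]
    have hss : s ≤ s' := by
      have h1 : ((m - 1 : ℕ) : ℤ) ≤ 4 * s' + H.card.choose 2 := by
        have : (c5_U H {σ} : ℤ) ≤ H.card.choose 2 := by exact_mod_cast hU
        linarith
      have h2 : m - 1 ≤ 4 * s' + H.card.choose 2 := by exact_mod_cast h1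
      omega
    have hlt : s' < m := by
      by_contra hge
      have h3 := c5_count H G hGp (m - 1) s' {σ}
      have h4 : (m - 1).choose s' = 0 := Nat.choose_eq_zero_of_lt (by omega)
      rw [h4] at h3
      have h5 : C ∈ G.filter (fun C => c5_R H C (m - 1) s' {σ}) :=
        Finset.mem_filter.2 ⟨hCG, hR⟩
      have h6 := Finset.card_pos.2 ⟨C, h5⟩
      omega
    rw [Finset.mem_biUnion]
    refine ⟨σ, Finset.mem_powersetCard.2 ⟨Finset.subset_univ _, hσ3⟩, ?_⟩
    rw [Finset.mem_biUnion]
    refine ⟨s', Finset.mem_range.2 hlt, ?_⟩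
    rw [if_pos hss]
    exact Finset.mem_filter.2 ⟨hCG, hR⟩
  refine (Finset.card_le_card hcov).trans (Finset.card_biUnion_le.trans ?_)
  have hin : ∀ σ ∈ (univ : Finset (Fin n)).powersetCard 3,
      ((Finset.range m).biUnion (fun s' => if s ≤ s' then
        G.filter (fun C => c5_R H C (m - 1) s' {σ}) else ∅)).card ≤
        2 ^ (m - 1) * (n ^ (m - 1 - s) * S ^ s) := by
    intro σ _
    refine Finset.card_biUnion_le.trans ?_
    calc ∑ s' ∈ Finset.range m, (if s ≤ s' then
          G.filter (fun C => c5_R H C (m - 1) s' {σ}) else ∅).card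
        ≤ ∑ s' ∈ Finset.range m, (m - 1).choose s' * (n ^ (m - 1 - s) * S ^ s) := by
          refine Finset.sum_le_sum (fun s' hs' => ?_)
          rw [Finset.mem_range] at hs'
          split_ifs with hle
          · refine (c5_count H G hGp (m - 1) s' {σ}).trans ?_
            rw [mul_assoc]
            refine Nat.mul_le_mul_left _ ?_
            have e1 : S ^ s' = S ^ (s' - s) * S ^ s := by
              rw [← pow_add]
              congr 1
              omega
            rw [← hS, e1]
            have e2 : n ^ (m - 1 - s) = n ^ (m - 1 - s') * n ^ (s' - s) := by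
              rw [← pow_add]
              congr 1
              omega
            rw [e2, mul_assoc]
            refine Nat.mul_le_mul_left _ ?_
            exact Nat.mul_le_mul_right _ (Nat.pow_le_pow_left hSn _)
          · simp
      _ = (∑ s' ∈ Finset.range (m - 1 + 1), (m - 1).choose s') * (n ^ (m - 1 - s) * S ^ s) := by
          rw [Finset.sum_mul]
          congr 2
          omega
      _ = _ := by rw [Nat.sum_range_choose]
  refine (Finset.sum_le_sum hin).trans ?_
  rw [Finset.sum_const, smul_eq_mul, Finset.card_powersetCard, Finset.card_univ, Fintype.card_fin]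
  have hc3 : n.choose 3 ≤ n ^ 3 := Nat.choose_le_pow n 3
  have h2m : 2 ^ (m - 1) ≤ 2 ^ m := Nat.pow_le_pow_right (by norm_num) (by omega)
  calc n.choose 3 * (2 ^ (m - 1) * (n ^ (m - 1 - s) * S ^ s))
      ≤ n ^ 3 * (2 ^ m * (n ^ (m - 1 - s) * S ^ s)) :=
        Nat.mul_le_mul hc3 (Nat.mul_le_mul_right _ h2m)
    _ = _ := by ring

end Pool.Agent.HT
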