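import Pool.Agent.Lib_helper59.HT.Defs2
import Pool.Agent.Lib_helper59.HT.A_QQ_psd
import Pool.Agent.Lib_helper59.HT.A_Z_pos
import Pool.Agent.Lib_helper59.HT.A_core
import Pool.Agent.Lib_helper59.HT.A_det_le_block

set_option autoImplicit false

open Finset Matrix

namespace Pool.Agent.HT

theorem sm2_cyc {n : ℕ} (F : Fin n → Fin n → Fin n → ℝ) :
    ∑ a, ∑ b, ∑ c, F a b c = ∑ a, ∑ b, ∑ c, F c a b := by
  rw [Finset.sum_comm]
  refine Finset.sum_congr rfl (fun b _ => ?_)
  rw [Finset.sum_comm]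

theorem sm2_cross {n : ℕ} (p q : Fin n → Fin n → ℝ) :
    ∑ a, ∑ b, ∑ c, p a b * q b c = ∑ b, (∑ a, p a b) * ∑ c, q b c := by
  rw [Finset.sum_comm]
  refine Finset.sum_congr rfl (fun b _ => ?_)
  rw [Finset.sum_mul]
  refine Finset.sum_congr rfl (fun a _ => ?_)
  rw [Finset.mul_sum]

/-- bilinear norm identity -/
theorem sm2_bil {n : ℕ} (g g' : Fin n → Fin n → ℝ) (hg : ∀ a b, g a b = - g b a)
    (hg' : ∀ a b, g' a b = - g' b a) :
    ∑ t : Tri n, cob g t * cob g' t =
      3 * n * ∑ a, ∑ b, g a b * g' a b - 6 * ∑ a, (∑ b, g a b) * (∑ b, g' a b) := by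
  have e0 : ∑ t : Tri n, cob g t * cob g' t = ∑ a, ∑ b, ∑ c,
      (g a b + g b c + g c a) * (g' a b + g' b c + g' c a) := by
    rw [Fintype.sum_prod_type]
    refine Finset.sum_congr rfl (fun a _ => ?_)
    rw [Fintype.sum_prod_type]
    rfl
  have e1 : ∀ a b c : Fin n, (g a b + g b c + g c a) * (g' a b + g' b c + g' c a) =
      g a b * g' a b + g b c * g' b c + g c a * g' c a + g a b * g' b c + g' c a * g a b +
        g' a b * g b c + g b c * g' c a + g c a * g' a b + g' b c * g c a := by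
    intro a b c; ring
  have d1 : ∑ a, ∑ b, ∑ _c : Fin n, g a b * g' a b = n * ∑ a, ∑ b, g a b * g' a b := by
    rw [Finset.mul_sum]
    refine Finset.sum_congr rfl (fun a _ => ?_)
    rw [Finset.mul_sum]
    refine Finset.sum_congr rfl (fun b _ => ?_)
    rw [Finset.sum_const, Finset.card_univ, Fintype.card_fin, nsmul_eq_mul]
  have d2 : ∑ _a : Fin n, ∑ b, ∑ c, g b c * g' b c = n * ∑ a, ∑ b, g a b * g' a b := by
    rw [sm2_cyc]; exact d1
  have d3 : ∑ a, ∑ _b : Fin n, ∑ c, g c a * g' c a = n * ∑ a, ∑ b, g a b * g' a b := by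
    rw [sm2_cyc]; exact d2
  have hs : ∀ b, ∑ a, g a b = -∑ a, g b a := by
    intro b
    rw [← Finset.sum_neg_distrib]
    exact Finset.sum_congr rfl (fun a _ => hg a b)
  have hs' : ∀ b, ∑ a, g' a b = -∑ a, g' b a := by
    intro b
    rw [← Finset.sum_neg_distrib]
    exact Finset.sum_congr rfl (fun a _ => hg' a b)
  set X := ∑ a, (∑ b, g a b) * (∑ b, g' a b) with hX
  have c1 : ∑ a, ∑ b, ∑ c, g a b * g' b c = -X := by
    rw [sm2_cross, hX, ← Finset.sum_neg_distrib]
    refine Finset.sum_congr rfl (fun b _ => ?_)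
    rw [hs]; ring
  have c3 : ∑ a, ∑ b, ∑ c, g' a b * g b c = -X := by
    rw [sm2_cross, hX, ← Finset.sum_neg_distrib]
    refine Finset.sum_congr rfl (fun b _ => ?_)
    rw [hs']; ring
  have c2 : ∑ a, ∑ b, ∑ c, g' c a * g a b = -X := by
    rw [sm2_cyc, sm2_cyc]; exact c3
  have c4 : ∑ a, ∑ b, ∑ c, g b c * g' c a = -X := by
    rw [sm2_cyc]; exact c1
  have c5 : ∑ a, ∑ b, ∑ c, g c a * g' a b = -X := by
    rw [sm2_cyc, sm2_cyc]; exact c1
  have c6 : ∑ a, ∑ b, ∑ c, g' b c * g c a = -X := by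
    rw [sm2_cyc]; exact c3
  rw [e0]
  simp only [e1, Finset.sum_add_distrib]
  rw [d1, d2, d3, c1, c2, c3, c4, c5, c6]
  ring

theorem sm2_chi_anti {n : ℕ} (a b : Fin n) (e : Fin n × Fin n) : chi a b e = - chi b a e := by
  unfold chi; ring

theorem sm2_bd_cob {n : ℕ} (t : Tri n) (e : Fin n × Fin n) :
    (bd t e : ℝ) = cob (fun a b => (chi a b e : ℝ)) t := by
  unfold bd cob
  push_cast
  ring

theorem sm2_sum_chi {n : ℕ} (a : Fin n) (e : Fin n × Fin n) :
    ∑ b, chi a b e = - inc e a := by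
  obtain ⟨u, v⟩ := e
  unfold chi inc
  rw [Finset.sum_sub_distrib]
  have h1 : ∑ b : Fin n, (if (u, v) = (a, b) then (1 : ℤ) else 0) = if a = u then 1 else 0 := by
    by_cases h : a = u
    · subst h
      simp [Prod.ext_iff]
    · rw [if_neg h]
      refine Finset.sum_eq_zero (fun b _ => ?_)
      rw [if_neg]
      intro h2
      exact h (Prod.ext_iff.1 h2).1.symm
  have h2 : ∑ b : Fin n, (if (u, v) = (b, a) then (1 : ℤ) else 0) = if a = v then 1 else 0 := by
    by_cases h : a = v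
    · subst h
      simp [Prod.ext_iff]
    · rw [if_neg h]
      refine Finset.sum_eq_zero (fun b _ => ?_)
      rw [if_neg]
      intro h2
      exact h (Prod.ext_iff.1 h2).2.symm
  rw [h1, h2]
  ring

theorem sm2_chi_chi {n : ℕ} (e e' : E n) :
    ∑ a, ∑ b, (chi a b e.1 : ℝ) * (chi a b e'.1 : ℝ) = if e = e' then 2 else 0 := by
  obtain ⟨⟨u, v⟩, huv⟩ := e
  obtain ⟨⟨u', v'⟩, huv'⟩ := e'
  simp only at huv huv'
  have h1 : ∀ a b : Fin n, (chi a b (u, v) : ℝ) * (chi a b (u', v') : ℝ) =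
      (if a = u then (if b = v then (if (u, v) = (u', v') then 1 else 0) else 0) else 0) +
      (if a = v then (if b = u then (if (u, v) = (u', v') then 1 else 0) else 0) else 0) := by
    intro a b
    unfold chi
    simp only [Prod.mk.injEq]
    by_cases h1 : a = u <;> by_cases h2 : b = v <;> by_cases h3 : a = v <;> by_cases h4 : b = u <;>
      by_cases h5 : u = u' <;> by_cases h6 : v = v' <;> (try subst_vars) <;> simp_all [eq_comm]
    · rintro rfl rfl
      exact absurd huv (not_lt.2 huv'.le)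
    · rintro rfl rfl
      exact absurd huv (not_lt.2 huv'.le)
  have h2 : ∀ (p q : Fin n) (c : ℝ),
      ∑ a : Fin n, ∑ b : Fin n, (if a = p then (if b = q then c else 0) else 0) = c := by
    intro p q c
    rw [Finset.sum_eq_single p]
    · simp
    · intro b _ hb
      simp [hb]
    · simp
  simp only [h1, Finset.sum_add_distrib, h2]
  by_cases h : (u, v) = (u', v')
  · have h' : (⟨(u, v), huv⟩ : E n) = ⟨(u', v'), huv'⟩ := Subtype.ext h
    rw [if_pos h, if_pos h']
    norm_num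
  · have h' : ¬ (⟨(u, v), huv⟩ : E n) = ⟨(u', v'), huv'⟩ := fun h' => h (Subtype.ext_iff.1 h')
    rw [if_neg h, if_neg h']
    norm_num

/-- Gram matrix of all boundaries -/
theorem sm2_gram {n : ℕ} (e e' : E n) :
    ∑ t : Tri n, (bd t e.1 : ℝ) * (bd t e'.1 : ℝ) =
      (if e = e' then 6 * (n : ℝ) else 0) - 6 * ∑ v, (inc e.1 v : ℝ) * (inc e'.1 v : ℝ) := by
  simp only [sm2_bd_cob]
  rw [sm2_bil _ _ (fun a b => by rw [sm2_chi_anti]; push_cast; ring)
    (fun a b => by rw [sm2_chi_anti]; push_cast; ring), sm2_chi_chi]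
  have h1 : ∀ (a : Fin n) (e : Fin n × Fin n), ∑ b, (chi a b e : ℝ) = -(inc e a : ℝ) := by
    intro a e
    have := sm2_sum_chi a e
    exact_mod_cast this
  simp only [h1]
  have h2 : ∑ a : Fin n, -(inc e.1 a : ℝ) * -(inc e'.1 a : ℝ) =
      ∑ v, (inc e.1 v : ℝ) * (inc e'.1 v : ℝ) :=
    Finset.sum_congr rfl (fun a _ => by ring)
  rw [h2]
  split_ifs <;> ring

theorem sm2_bdy_chi {n : ℕ} (a b v : Fin n) :
    ∑ e : E n, inc e.1 v * chi a b e.1 = (if v = b then 1 else 0) - (if v = a then 1 else 0) := by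
  rcases lt_trichotomy a b with h | h | h
  · rw [Finset.sum_eq_single (⟨(a, b), h⟩ : E n)]
    · unfold chi inc
      have : ¬ ((a, b) = (b, a)) := by
        intro h2
        exact h.ne (Prod.ext_iff.1 h2).1
      simp [this]
    · intro e _ he
      have h1 : ¬ e.1 = (a, b) := fun h2 => he (Subtype.ext h2)
      have h2 : ¬ e.1 = (b, a) := by
        intro h3
        have := e.2
        rw [h3] at this
        exact absurd this (not_lt.2 h.le)
      unfold chi
      rw [if_neg h1, if_neg h2]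
      simp
    · intro h2
      exact absurd (Finset.mem_univ _) h2
  · subst h
    have : ∀ e : E n, inc e.1 v * chi a a e.1 = 0 := by
      intro e
      unfold chi
      ring
    simp [this]
  · rw [Finset.sum_eq_single (⟨(b, a), h⟩ : E n)]
    · unfold chi inc
      have : ¬ ((b, a) = (a, b)) := by
        intro h2
        exact h.ne (Prod.ext_iff.1 h2).1
      simp [this]
    · intro e _ he
      have h1 : ¬ e.1 = (b, a) := fun h2 => he (Subtype.ext h2)
      have h2 : ¬ e.1 = (a, b) := by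
        intro h3
        have := e.2
        rw [h3] at this
        exact absurd this (not_lt.2 h.le)
      unfold chi
      rw [if_neg h1, if_neg h2]
      simp
    · intro h2
      exact absurd (Finset.mem_univ _) h2

theorem sm2_bdy {n : ℕ} (t : Tri n) (v : Fin n) : ∑ e : E n, inc e.1 v * bd t e.1 = 0 := by
  unfold bd
  simp only [mul_add, Finset.sum_add_distrib, sm2_bdy_chi]
  ring

/-- boundary vector on all edges -/
noncomputable def sm2_bv {n : ℕ} (t : Tri n) : E n → ℝ := fun e => (bd t e.1 : ℝ)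

/-- full Gram matrix of the incidence vectors -/
noncomputable def sm2_K (n : ℕ) : Matrix (E n) (E n) ℝ :=
  Matrix.of fun e e' => ∑ v, (inc e.1 v : ℝ) * (inc e'.1 v : ℝ)

/-- the projection -/
noncomputable def sm2_P (n : ℕ) : Matrix (E n) (E n) ℝ :=
  (1 / (6 * (n : ℝ))) • ∑ t : Tri n, Matrix.vecMulVec (sm2_bv t) (sm2_bv t)

theorem sm2_P_eq (n : ℕ) (hn : 1 ≤ n) : sm2_P n = 1 - (1 / (n : ℝ)) • sm2_K n := by
  have hn' : (n : ℝ) ≠ 0 := by positivity
  ext e e'
  unfold sm2_P sm2_K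
  rw [Matrix.smul_apply, Matrix.sum_apply, Matrix.sub_apply, Matrix.smul_apply,
    Matrix.one_apply, Matrix.of_apply]
  simp only [Matrix.vecMulVec_apply, sm2_bv]
  rw [sm2_gram, smul_eq_mul, smul_eq_mul]
  split_ifs
  · field_simp
  · field_simp
    ring

theorem sm2_K_bv {n : ℕ} (t : Tri n) : sm2_K n *ᵥ sm2_bv t = 0 := by
  ext e
  unfold sm2_K sm2_bv
  rw [Matrix.mulVec, dotProduct]
  simp only [Matrix.of_apply, Finset.sum_mul, Pi.zero_apply]
  rw [Finset.sum_comm]
  refine Finset.sum_eq_zero (fun v _ => ?_)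
  have h1 : ∀ e' : E n, (inc e.1 v : ℝ) * (inc e'.1 v : ℝ) * (bd t e'.1 : ℝ) =
      (inc e.1 v : ℝ) * (((inc e'.1 v * bd t e'.1 : ℤ)) : ℝ) := by
    intro e'
    push_cast
    ring
  simp only [h1]
  rw [← Finset.mul_sum, ← Int.cast_sum, sm2_bdy]
  simp

theorem sm2_P_bv {n : ℕ} (hn : 1 ≤ n) (t : Tri n) : sm2_P n *ᵥ sm2_bv t = sm2_bv t := by
  rw [sm2_P_eq n hn, Matrix.sub_mulVec, Matrix.one_mulVec, Matrix.smul_mulVec, sm2_K_bv,
    smul_zero, sub_zero]

theorem sm2_P_symm (n : ℕ) : (sm2_P n)ᵀ = sm2_P n := by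
  unfold sm2_P
  rw [Matrix.transpose_smul, Matrix.transpose_sum]
  congr 1
  refine Finset.sum_congr rfl (fun t _ => ?_)
  rw [Matrix.transpose_vecMulVec]

theorem sm2_bv_P {n : ℕ} (hn : 1 ≤ n) (t : Tri n) : sm2_bv t ᵥ* sm2_P n = sm2_bv t := by
  rw [← Matrix.mulVec_transpose, sm2_P_symm, sm2_P_bv hn]

theorem sm2_P_vv {n : ℕ} (hn : 1 ≤ n) (t : Tri n) :
    sm2_P n * Matrix.vecMulVec (sm2_bv t) (sm2_bv t) = Matrix.vecMulVec (sm2_bv t) (sm2_bv t) := by
  rw [Matrix.mul_vecMulVec, sm2_P_bv hn]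

theorem sm2_vv_P {n : ℕ} (hn : 1 ≤ n) (t : Tri n) :
    Matrix.vecMulVec (sm2_bv t) (sm2_bv t) * sm2_P n = Matrix.vecMulVec (sm2_bv t) (sm2_bv t) := by
  rw [Matrix.vecMulVec_mul, sm2_bv_P hn]

theorem sm2_PP {n : ℕ} (hn : 1 ≤ n) : sm2_P n * sm2_P n = sm2_P n := by
  conv_lhs => rw [show sm2_P n * sm2_P n = sm2_P n * ((1 / (6 * (n : ℝ))) •
    ∑ t : Tri n, Matrix.vecMulVec (sm2_bv t) (sm2_bv t)) from rfl]
  rw [Matrix.mul_smul, Matrix.mul_sum]
  simp only [sm2_P_vv hn]
  rfl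

theorem sm2_PQP {n : ℕ} (hn : 1 ≤ n) (x : Tri n → ℝ) :
    sm2_P n * QQ x * sm2_P n =
      (1 / (6 * (n : ℝ))) • ∑ t : Tri n, x t • Matrix.vecMulVec (sm2_bv t) (sm2_bv t) := by
  have h1 : QQ x = 1 - (1 / (6 * (n : ℝ))) • ∑ t : Tri n, (1 - x t) •
      Matrix.vecMulVec (sm2_bv t) (sm2_bv t) := rfl
  have h2 : sm2_P n * (∑ t : Tri n, (1 - x t) • Matrix.vecMulVec (sm2_bv t) (sm2_bv t)) *
      sm2_P n = ∑ t : Tri n, (1 - x t) • Matrix.vecMulVec (sm2_bv t) (sm2_bv t) := by
    rw [Matrix.mul_sum, Matrix.sum_mul]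
    refine Finset.sum_congr rfl (fun t _ => ?_)
    rw [Matrix.mul_smul, Matrix.smul_mul, sm2_P_vv hn, sm2_vv_P hn]
  rw [h1, Matrix.mul_sub, Matrix.sub_mul, Matrix.mul_one, sm2_PP hn, Matrix.mul_smul,
    Matrix.smul_mul, h2]
  unfold sm2_P
  rw [← smul_sub, ← Finset.sum_sub_distrib]
  congr 1
  refine Finset.sum_congr rfl (fun t _ => ?_)
  rw [sub_smul, one_smul, sub_sub_cancel]

/-- the matrix with columns `P e` (`e ∈ F`) and `e` (`e ∉ F`) -/
noncomputable def sm2_B {n : ℕ} (F : Finset (E n)) : Matrix (E n) (E n) ℝ :=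
  Matrix.of fun i e => if e ∈ F then sm2_P n i e else (1 : Matrix (E n) (E n) ℝ) i e

theorem sm2_det_B {n : ℕ} (hn : 1 ≤ n) (F : Finset (E n)) :
    (sm2_B F).det = (1 - (1 / (n : ℝ)) • KF F).det := by
  rw [Matrix.twoBlockTriangular_det' (sm2_B F) (fun e => e ∈ F)]
  · have h1 : ((sm2_B F).toSquareBlockProp fun e => ¬ e ∈ F) = 1 := by
      ext i j
      have h3 : ((sm2_B F).toSquareBlockProp fun e => ¬ e ∈ F) i j =
        if j.1 ∈ F then sm2_P n i.1 j.1 else (1 : Matrix (E n) (E n) ℝ) i.1 j.1 := rfl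
      rw [h3, if_neg j.2, Matrix.one_apply, Matrix.one_apply]
      simp only [Subtype.ext_iff]
    have h2 : ((sm2_B F).toSquareBlockProp fun e => e ∈ F) = 1 - (1 / (n : ℝ)) • KF F := by
      ext i j
      have h3 : ((sm2_B F).toSquareBlockProp fun e => e ∈ F) i j =
        if j.1 ∈ F then sm2_P n i.1 j.1 else (1 : Matrix (E n) (E n) ℝ) i.1 j.1 := rfl
      rw [h3, if_pos j.2, sm2_P_eq n hn]
      simp only [Matrix.sub_apply, Matrix.smul_apply, Matrix.one_apply, sm2_K, KF,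
        Matrix.of_apply, Subtype.ext_iff]
    rw [h1, h2, Matrix.det_one, mul_one]
    congr!
  · intro i hi j hj
    unfold sm2_B
    rw [Matrix.of_apply, if_neg hj, Matrix.one_apply_ne]
    rintro rfl
    exact hj hi

theorem sm2_BQB_F {n : ℕ} (hn : 1 ≤ n) (F : Finset (E n)) (x : Tri n → ℝ) (e e' : E n)
    (he : e ∈ F) (he' : e' ∈ F) :
    ((sm2_B F)ᵀ * QQ x * sm2_B F) e e' =
      (1 / (6 * (n : ℝ))) * ∑ t : Tri n, x t * ((bd t e.1 : ℝ) * (bd t e'.1 : ℝ)) := by
  have h1 : ((sm2_B F)ᵀ * QQ x * sm2_B F) e e' = ((sm2_P n)ᵀ * QQ x * sm2_P n) e e' := by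
    simp only [Matrix.mul_apply, Matrix.transpose_apply, sm2_B, Matrix.of_apply, if_pos he,
      if_pos he']
  rw [h1, sm2_P_symm, sm2_PQP hn, Matrix.smul_apply, Matrix.sum_apply, smul_eq_mul]
  simp only [Matrix.smul_apply, Matrix.vecMulVec_apply, smul_eq_mul, sm2_bv]

theorem sm2_BQB_diag {n : ℕ} (F : Finset (E n)) (x : Tri n → ℝ) (e : E n) (he : e ∉ F) :
    ((sm2_B F)ᵀ * QQ x * sm2_B F) e e = QQ x e e := by
  have h1 : ((sm2_B F)ᵀ * QQ x * sm2_B F) e e =
      ((1 : Matrix (E n) (E n) ℝ)ᵀ * QQ x * (1 : Matrix (E n) (E n) ℝ) :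
        Matrix (E n) (E n) ℝ) e e := by
    simp only [Matrix.mul_apply, Matrix.transpose_apply, sm2_B, Matrix.of_apply, if_neg he]
  rw [h1, Matrix.transpose_one, Matrix.one_mul, Matrix.mul_one]

open Classical in
/-- the diagonal -/
theorem sm2_diag {n : ℕ} (Y : Tri n → Prop) (hY : SymT Y) (e : E n) :
    ∑ t : Tri n, (if Y t then (bd t e.1 : ℝ) ^ 2 else 0) =
      6 * cnt (fun c : Fin n => Y (e.1.1, e.1.2, c)) := by
  obtain ⟨⟨u, v⟩, huv⟩ := e
  simp only at huv
  have hne : u ≠ v := huv.ne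
  set T : Fin n → Fin n → Fin n → ℝ := fun a b c =>
    if a = u then (if b = v then (if Y (a, b, c) then 1 else 0) else 0) else 0 with hT
  set T' : Fin n → Fin n → Fin n → ℝ := fun a b c =>
    if a = v then (if b = u then (if Y (a, b, c) then 1 else 0) else 0) else 0 with hT'
  have hcyc : ∀ a b c, Y (a, b, c) ↔ Y (b, c, a) := fun a b c =>
    ⟨fun h => (hY a b c h).2.1, fun h => (hY c a b (hY b c a h).2.1).2.1⟩
  have hsw : ∀ a b c, Y (a, b, c) ↔ Y (b, a, c) := fun a b c =>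
    ⟨fun h => (hY a b c h).1, fun h => (hY b a c h).1⟩
  have hpt : ∀ a b c : Fin n, (if Y (a, b, c) then (bd (a, b, c) (u, v) : ℝ) ^ 2 else 0) =
      (T a b c + T' a b c) + (T b c a + T' b c a) + (T c a b + T' c a b) := by
    intro a b c
    by_cases h : Y (a, b, c)
    · have h1 : Y (b, c, a) := (hcyc a b c).1 h
      have h2 : Y (c, a, b) := (hcyc b c a).1 h1
      have n1 : a ≠ b := (hY a b c h).2.2
      have n2 : b ≠ c := (hY b c a h1).2.2
      have n3 : c ≠ a := (hY c a b h2).2.2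
      simp only [hT, hT', if_pos h, if_pos h1, if_pos h2]
      unfold bd chi
      simp only [Prod.mk.injEq]
      have n1' := n1.symm
      have n2' := n2.symm
      have n3' := n3.symm
      have hne' := hne.symm
      rcases eq_or_ne u a with rfl | a1
      · rcases eq_or_ne v b with rfl | b2
        · simp [n1, n2, n3, n1', n2', n3']
        · rcases eq_or_ne v c with rfl | c2
          · simp [n1, n2, n3, n1', n2', n3', b2, b2.symm]
          · simp [n1, n2, n3, n1', n2', n3', b2, b2.symm, c2, c2.symm, hne, hne']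
      · rcases eq_or_ne u b with rfl | b1
        · rcases eq_or_ne v a with rfl | a2
          · simp [n1, n2, n3, n1', n2', n3']
          · rcases eq_or_ne v c with rfl | c2
            · simp [n1, n2, n3, n1', n2', n3', a2, a2.symm]
            · simp [n1, n2, n3, n1', n2', n3', a2, a2.symm, c2, c2.symm, hne, hne']
        · rcases eq_or_ne u c with rfl | c1
          · rcases eq_or_ne v a with rfl | a2
            · simp [n1, n2, n3, n1', n2', n3']
            · rcases eq_or_ne v b with rfl | b2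
              · simp [n1, n2, n3, n1', n2', n3', a2, a2.symm]
              · simp [n1, n2, n3, n1', n2', n3', a2, a2.symm, b2, b2.symm, hne, hne']
          · simp [a1, a1.symm, b1, b1.symm, c1, c1.symm]
    · have h1 : ¬ Y (b, c, a) := fun h' => h ((hcyc a b c).2 h')
      have h2 : ¬ Y (c, a, b) := fun h' => h1 ((hcyc b c a).2 h')
      simp only [hT, hT', if_neg h, if_neg h1, if_neg h2]
      simp
  have e0 : ∑ t : Tri n, (if Y t then (bd t (u, v) : ℝ) ^ 2 else 0) =
      ∑ a, ∑ b, ∑ c, (if Y (a, b, c) then (bd (a, b, c) (u, v) : ℝ) ^ 2 else 0) := by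
    rw [Fintype.sum_prod_type]
    refine Finset.sum_congr rfl (fun a _ => ?_)
    rw [Fintype.sum_prod_type]
  have s1 : ∑ a, ∑ b, ∑ c, T a b c = cnt (fun c : Fin n => Y (u, v, c)) := by
    rw [Finset.sum_eq_single u]
    · rw [Finset.sum_eq_single v]
      · simp only [hT, if_true]
        unfold cnt
        rw [Finset.sum_boole]
      · intro b _ hb
        simp [hT, hb]
      · simp
    · intro a _ ha
      simp [hT, ha]
    · simp
  have s1' : ∑ a, ∑ b, ∑ c, T' a b c = cnt (fun c : Fin n => Y (u, v, c)) := by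
    rw [Finset.sum_eq_single v]
    · rw [Finset.sum_eq_single u]
      · simp only [hT', if_true]
        unfold cnt
        rw [Finset.sum_boole]
        congr 2
        ext c
        rw [Finset.mem_filter, Finset.mem_filter, hsw v u c]
      · intro b _ hb
        simp [hT', hb]
      · simp
    · intro a _ ha
      simp [hT', ha]
    · simp
  have c1 : ∀ F : Fin n → Fin n → Fin n → ℝ,
      ∑ a, ∑ b, ∑ c, F b c a = ∑ a, ∑ b, ∑ c, F a b c := by
    intro F
    rw [sm2_cyc]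
  have c2 : ∀ F : Fin n → Fin n → Fin n → ℝ,
      ∑ a, ∑ b, ∑ c, F c a b = ∑ a, ∑ b, ∑ c, F a b c := by
    intro F
    rw [← sm2_cyc]
  rw [e0]
  simp only [hpt, Finset.sum_add_distrib]
  rw [c1 T, c1 T', c2 T, c2 T', s1, s1']
  ring

/-- BLOCK SM2 -/
theorem iso_bound_pr (n : ℕ) (hn : 1 ≤ n) (Y : Tri n → Prop) (hY : SymT Y) (F : Finset (E n)) :
    mass (fun τ : E' n → Tri n => ∀ i, ¬ Y (τ i)) * (1 - (1 / (n : ℝ)) • KF F).det ^ 2 ≤
      Z n * ((1 / (6 * (n : ℝ))) • LF F Y).det *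
        ∏ e ∈ Fᶜ, (1 - (cnt (fun c : Fin n => Y (e.1.1, e.1.2, c)) : ℝ) / n) := by
  classical
  have hn' : (n : ℝ) ≠ 0 := by positivity
  set x : Tri n → ℝ := fun t => if Y t then 0 else 1 with hx
  have hx0 : ∀ t, 0 ≤ x t := by
    intro t
    simp only [hx]
    split_ifs <;> norm_num
  have hmass : mass (fun τ : E' n → Tri n => ∀ i, ¬ Y (τ i)) = Z n * (QQ x).det := by
    rw [← core n hn x]
    unfold mass
    refine Finset.sum_congr rfl (fun τ _ => ?_)
    by_cases h : ∀ i, ¬ Y (τ i)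
    · rw [if_pos h]
      have : ∏ i, x (τ i) = 1 := Finset.prod_eq_one (fun i _ => by simp only [hx, if_neg (h i)])
      rw [this, mul_one]
    · rw [if_neg h]
      push Not at h
      obtain ⟨i, hi⟩ := h
      have : ∏ i, x (τ i) = 0 :=
        Finset.prod_eq_zero (Finset.mem_univ i) (by simp only [hx, if_pos hi])
      rw [this, mul_zero]
  have hZ : 0 ≤ Z n := (Z_pos n hn).le
  set A := (sm2_B F)ᵀ * QQ x * sm2_B F with hA
  have hApsd : A.PosSemidef := by
    have := (QQ_psd n hn x hx0).conjTranspose_mul_mul_same (sm2_B F)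
    rwa [Matrix.conjTranspose_eq_transpose_of_trivial] at this
  have hdetA : A.det = (QQ x).det * (1 - (1 / (n : ℝ)) • KF F).det ^ 2 := by
    rw [hA, Matrix.det_mul, Matrix.det_mul, Matrix.det_transpose, sm2_det_B hn]
    ring
  have hblock := det_le_block A hApsd F
  have hsub : A.submatrix (fun i : F => i.1) (fun i : F => i.1) =
      (1 / (6 * (n : ℝ))) • LF F Y := by
    ext i j
    rw [Matrix.submatrix_apply, hA, sm2_BQB_F hn F x i.1 j.1 i.2 j.2, Matrix.smul_apply,
      smul_eq_mul]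
    congr 1
    unfold LF
    rw [Matrix.of_apply]
    refine Finset.sum_congr rfl (fun t _ => ?_)
    simp only [hx]
    split_ifs <;> ring
  have hdiag : ∏ i ∈ Fᶜ, A i i =
      ∏ e ∈ Fᶜ, (1 - (cnt (fun c : Fin n => Y (e.1.1, e.1.2, c)) : ℝ) / n) := by
    refine Finset.prod_congr rfl (fun e he => ?_)
    rw [hA, sm2_BQB_diag F x e (Finset.mem_compl.1 he)]
    unfold QQ
    rw [Matrix.sub_apply, Matrix.one_apply_eq, Matrix.smul_apply, Matrix.sum_apply, smul_eq_mul]
    have h1 : ∑ t : Tri n, ((1 - x t) • Matrix.vecMulVec (fun e : E n => (bd t e.1 : ℝ))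
        (fun e : E n => (bd t e.1 : ℝ))) e e =
        ∑ t : Tri n, (if Y t then (bd t e.1 : ℝ) ^ 2 else 0) := by
      refine Finset.sum_congr rfl (fun t _ => ?_)
      rw [Matrix.smul_apply, Matrix.vecMulVec_apply, smul_eq_mul]
      simp only [hx]
      split_ifs <;> ring
    rw [h1, sm2_diag Y hY e]
    field_simp
  rw [hsub, hdiag] at hblock
  rw [hmass]
  calc Z n * (QQ x).det * (1 - (1 / (n : ℝ)) • KF F).det ^ 2
      = Z n * A.det := by rw [hdetA]; ring
    _ ≤ Z n * (((1 / (6 * (n : ℝ))) • LF F Y).det *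
        ∏ e ∈ Fᶜ, (1 - (cnt (fun c : Fin n => Y (e.1.1, e.1.2, c)) : ℝ) / n)) :=
        mul_le_mul_of_nonneg_left hblock hZ
    _ = _ := by ring


end Pool.Agent.HT
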