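import Pool.Agent.Lib_helper59.HT.Defs2
import Pool.Agent.Lib_helper59.HT.A_exp_le_det_one_sub

set_option autoImplicit false

open Finset Matrix

namespace Pool.Agent.HT

theorem sm2b_inc_sq {n : ℕ} (e : E n) : ∑ v, (inc e.1 v : ℝ) ^ 2 = 2 := by
  obtain ⟨⟨a, b⟩, hab⟩ := e
  simp only at hab
  have hne : a ≠ b := hab.ne
  have h1 : ∀ v : Fin n, (inc (a, b) v : ℝ) ^ 2 =
      (if v = b then 1 else 0) + (if v = a then 1 else 0) := by
    intro v
    unfold inc
    rcases eq_or_ne v b with rfl | hb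
    · simp [hne.symm]
    · rcases eq_or_ne v a with rfl | ha
      · simp [hb]
      · simp [ha, hb]
  simp only [h1, Finset.sum_add_distrib, Finset.sum_ite_eq', Finset.mem_univ, if_true]
  norm_num

theorem sm2b_inc_mul {n : ℕ} (e : E n) (v : Fin n) :
    (inc e.1 v : ℝ) ^ 2 * (inc e.1 v : ℝ) = inc e.1 v := by
  unfold inc
  split_ifs <;> norm_num

theorem sm2b_deg {n : ℕ} (F : Finset (E n)) (v : Fin n) :
    ∑ e : F, (inc e.1.1 v : ℝ) ^ 2 ≤ dg F v := by
  classical
  have h1 : ∀ e : E n, (inc e.1 v : ℝ) ^ 2 = if (v = e.1.1 ∨ v = e.1.2) then 1 else 0 := by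
    rintro ⟨⟨a, b⟩, hab⟩
    simp only at hab
    have hne : a ≠ b := hab.ne
    unfold inc
    simp only
    rcases eq_or_ne v b with rfl | hb
    · simp [hne.symm]
    · rcases eq_or_ne v a with rfl | ha
      · simp [hb]
      · simp [ha, hb]
  have h2 : ∑ e : F, (inc e.1.1 v : ℝ) ^ 2 =
      ((F.filter (fun e => v = e.1.1 ∨ v = e.1.2)).card : ℝ) := by
    rw [Finset.sum_coe_sort F (fun e => (inc e.1 v : ℝ) ^ 2)]
    simp only [h1]
    rw [Finset.sum_boole]
  rw [h2]
  unfold dg cnt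
  norm_cast
  refine Finset.card_le_card_of_injOn (fun e => if v = e.1.1 then e.1.2 else e.1.1) ?_ ?_
  · intro e he
    rw [Finset.mem_coe, Finset.mem_filter] at he
    rw [Finset.mem_coe, Finset.mem_filter]
    refine ⟨Finset.mem_univ _, e, he.1, ?_⟩
    simp only
    split_ifs with h
    · left
      rw [h]
    · right
      rcases he.2 with h3 | h3
      · exact absurd h3 h
      · rw [h3]
  · intro e he e' he' hee
    rw [Finset.mem_coe, Finset.mem_filter] at he he'
    simp only at hee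
    have hlt := e.2
    have hlt' := e'.2
    apply Subtype.ext
    apply Prod.ext
    · split_ifs at hee with h h' h'
      · rw [← h, ← h']
      · rcases he'.2 with h3 | h3
        · exact absurd h3 h'
        · exfalso
          rw [← h, hee] at hlt
          rw [← h3] at hlt'
          exact absurd hlt (not_lt.2 hlt'.le)
      · rcases he.2 with h3 | h3
        · exact absurd h3 h
        · exfalso
          rw [← h3, hee] at hlt
          rw [← h'] at hlt'
          exact absurd hlt (not_lt.2 hlt'.le)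
      · exact hee
    · split_ifs at hee with h h' h'
      · exact hee
      · rcases he'.2 with h3 | h3
        · exact absurd h3 h'
        · exfalso
          rw [← h, hee] at hlt
          rw [← h3] at hlt'
          exact absurd hlt (not_lt.2 hlt'.le)
      · rcases he.2 with h3 | h3
        · exact absurd h3 h
        · exfalso
          rw [← h3, hee] at hlt
          rw [← h'] at hlt'
          exact absurd hlt (not_lt.2 hlt'.le)
      · rcases he.2 with h3 | h3
        · exact absurd h3 h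
        · rcases he'.2 with h4 | h4
          · exact absurd h4 h'
          · rw [← h3, ← h4]

/-- the quadratic form of `KF` -/
theorem sm2b_form {n : ℕ} (F : Finset (E n)) (x : F → ℝ) :
    star x ⬝ᵥ (KF F *ᵥ x) = ∑ v, (∑ e : F, (inc e.1.1 v : ℝ) * x e) ^ 2 := by
  have h1 : star x ⬝ᵥ (KF F *ᵥ x) = ∑ e : F, ∑ e' : F, ∑ v,
      ((inc e.1.1 v : ℝ) * x e) * ((inc e'.1.1 v : ℝ) * x e') := by
    unfold KF
    simp only [dotProduct, Matrix.mulVec, Matrix.of_apply, star_trivial, Finset.mul_sum,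
      Finset.sum_mul]
    refine Finset.sum_congr rfl (fun e _ => Finset.sum_congr rfl (fun e' _ =>
      Finset.sum_congr rfl (fun v _ => by ring)))
  rw [h1]
  have h2 : ∀ v : Fin n, (∑ e : F, (inc e.1.1 v : ℝ) * x e) ^ 2 =
      ∑ e : F, ∑ e' : F, ((inc e.1.1 v : ℝ) * x e) * ((inc e'.1.1 v : ℝ) * x e') := by
    intro v
    rw [sq, Finset.sum_mul_sum]
  simp only [h2]
  conv_rhs => rw [Finset.sum_comm]
  refine Finset.sum_congr rfl (fun e _ => ?_)
  rw [Finset.sum_comm]

theorem sm2b_form_le {n : ℕ} (F : Finset (E n)) (hF : ∀ v, 4 * dg F v ≤ n) (x : F → ℝ) :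
    ∑ v, (∑ e : F, (inc e.1.1 v : ℝ) * x e) ^ 2 ≤ (n : ℝ) / 2 * ∑ e, x e ^ 2 := by
  have h1 : ∀ v : Fin n, (∑ e : F, (inc e.1.1 v : ℝ) * x e) ^ 2 ≤
      (n : ℝ) / 4 * ∑ e : F, (inc e.1.1 v : ℝ) ^ 2 * x e ^ 2 := by
    intro v
    have h2 : ∑ e : F, (inc e.1.1 v : ℝ) * x e =
        ∑ e : F, (inc e.1.1 v : ℝ) * ((inc e.1.1 v : ℝ) ^ 2 * x e) := by
      refine Finset.sum_congr rfl (fun e _ => ?_)
      have := sm2b_inc_mul e.1 v
      calc (inc e.1.1 v : ℝ) * x e = ((inc e.1.1 v : ℝ) ^ 2 * (inc e.1.1 v : ℝ)) * x e := by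
            rw [this]
        _ = _ := by ring
    rw [h2]
    have h3 := Finset.sum_mul_sq_le_sq_mul_sq (univ : Finset F) (fun e => (inc e.1.1 v : ℝ))
      (fun e => (inc e.1.1 v : ℝ) ^ 2 * x e)
    refine h3.trans ?_
    have h4 : ∑ e : F, ((inc e.1.1 v : ℝ) ^ 2 * x e) ^ 2 =
        ∑ e : F, (inc e.1.1 v : ℝ) ^ 2 * x e ^ 2 := by
      refine Finset.sum_congr rfl (fun e _ => ?_)
      have := sm2b_inc_mul e.1 v
      calc ((inc e.1.1 v : ℝ) ^ 2 * x e) ^ 2
          = ((inc e.1.1 v : ℝ) ^ 2 * (inc e.1.1 v : ℝ)) * (inc e.1.1 v : ℝ) * x e ^ 2 := by ring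
        _ = _ := by rw [this]; ring
    rw [h4]
    refine mul_le_mul_of_nonneg_right ?_ (Finset.sum_nonneg (fun e _ => by positivity))
    refine (sm2b_deg F v).trans ?_
    have h5 : (4 * dg F v : ℝ) ≤ n := by exact_mod_cast hF v
    linarith
  refine (Finset.sum_le_sum (fun v _ => h1 v)).trans ?_
  rw [← Finset.mul_sum, Finset.sum_comm]
  have h6 : ∀ e : F, ∑ v, (inc e.1.1 v : ℝ) ^ 2 * x e ^ 2 = 2 * x e ^ 2 := by
    intro e
    rw [← Finset.sum_mul, sm2b_inc_sq]
  simp only [h6]
  rw [← Finset.mul_sum]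
  refine le_of_eq ?_
  ring

/-- BLOCK SM2b -/
theorem KF_bound_pr (n : ℕ) (hn : 1 ≤ n) (F : Finset (E n)) (hF : ∀ v, 4 * dg F v ≤ n) :
    Real.exp (-(4 * (F.card : ℝ) / n)) ≤ (1 - (1 / (n : ℝ)) • KF F).det := by
  have hn' : (0 : ℝ) < n := by positivity
  have hherm : (KF F).IsHermitian := by
    ext e e'
    unfold KF
    simp only [Matrix.conjTranspose_apply, Matrix.of_apply, star_trivial]
    exact Finset.sum_congr rfl (fun v _ => by ring)
  have hherm' : ((1 / (n : ℝ)) • KF F).IsHermitian := by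
    unfold Matrix.IsHermitian
    rw [Matrix.conjTranspose_smul, hherm.eq, star_trivial]
  have hC : ((1 / (n : ℝ)) • KF F).PosSemidef := by
    refine Matrix.PosSemidef.of_dotProduct_mulVec_nonneg hherm' (fun x => ?_)
    rw [Matrix.smul_mulVec, dotProduct_smul, sm2b_form, smul_eq_mul]
    exact mul_nonneg (by positivity) (Finset.sum_nonneg (fun v _ => sq_nonneg _))
  have hC2 : ((1 / 2 : ℝ) • (1 : Matrix F F ℝ) - (1 / (n : ℝ)) • KF F).PosSemidef := by
    refine Matrix.PosSemidef.of_dotProduct_mulVec_nonneg ?_ (fun x => ?_)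
    · unfold Matrix.IsHermitian
      rw [Matrix.conjTranspose_sub, hherm'.eq, Matrix.conjTranspose_smul,
        Matrix.conjTranspose_one, star_trivial]
    · rw [Matrix.sub_mulVec, dotProduct_sub, Matrix.smul_mulVec, Matrix.smul_mulVec,
        dotProduct_smul, dotProduct_smul, sm2b_form, Matrix.one_mulVec, smul_eq_mul,
        smul_eq_mul]
      have h1 := sm2b_form_le F hF x
      have h2 : star x ⬝ᵥ x = ∑ e, x e ^ 2 := by
        simp only [dotProduct, star_trivial]
        exact Finset.sum_congr rfl (fun e _ => by ring)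
      rw [h2]
      have h3 : 1 / (n : ℝ) * ∑ v, (∑ e : F, (inc e.1.1 v : ℝ) * x e) ^ 2 ≤
          1 / (n : ℝ) * ((n : ℝ) / 2 * ∑ e, x e ^ 2) :=
        mul_le_mul_of_nonneg_left h1 (by positivity)
      have h4 : 1 / (n : ℝ) * ((n : ℝ) / 2 * ∑ e, x e ^ 2) = 1 / 2 * ∑ e, x e ^ 2 := by
        field_simp
      linarith
  have hmain := exp_le_det_one_sub _ hC hC2
  have htr : ((1 / (n : ℝ)) • KF F).trace = 2 * F.card / n := by
    rw [Matrix.trace_smul, smul_eq_mul]
    have : (KF F).trace = 2 * F.card := by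
      unfold Matrix.trace KF
      simp only [Matrix.diag_apply, Matrix.of_apply]
      have h1 : ∀ e : F, ∑ v, (inc e.1.1 v : ℝ) * (inc e.1.1 v : ℝ) = 2 := by
        intro e
        rw [← sm2b_inc_sq e.1]
        exact Finset.sum_congr rfl (fun v _ => by ring)
      simp only [h1]
      rw [Finset.sum_const, Finset.card_univ, Fintype.card_coe, nsmul_eq_mul]
      ring
    rw [this]
    ring
  rw [htr] at hmain
  refine le_trans (le_of_eq ?_) hmain
  congr 1
  ring


end Pool.Agent.HT
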