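import Pool.Agent.Lib_helper59.HT.Defs2
import Pool.Agent.Lib_helper59.HT.A_det_mono
import Pool.Agent.Lib_helper16.HT.SM2

set_option autoImplicit false

open Finset Matrix

namespace Pool.Agent.HT

theorem sm2c_inF_symm {n : ℕ} {F : Finset (E n)} {u v : Fin n} (h : inF F u v) : inF F v u := by
  obtain ⟨e, he, h | h⟩ := h
  · exact ⟨e, he, Or.inr h⟩
  · exact ⟨e, he, Or.inl h⟩

theorem sm2c_inF_irrefl {n : ℕ} {F : Finset (E n)} {u : Fin n} : ¬ inF F u u := by
  rintro ⟨e, -, h⟩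
  have h1 := e.2
  have h2 : e.1 = (u, u) := by
    rcases h with h | h <;> exact h
  rw [h2] at h1
  exact lt_irrefl _ h1

theorem sm2c_inF_H {n : ℕ} {H : Finset (Fin n)} {F : Finset (E n)}
    (hF : ∀ e ∈ F, e.1.1 ∉ H ∧ e.1.2 ∉ H) {u v : Fin n} (h : inF F u v) : u ∉ H ∧ v ∉ H := by
  obtain ⟨e, he, h | h⟩ := h
  · have := hF e he
    rw [h] at this
    exact this
  · have := hF e he
    rw [h] at this
    exact ⟨this.2, this.1⟩

theorem sm2c_Y1_symm {n : ℕ} {L : Type} {H : Finset (Fin n)} {lab : Fin n → Fin n → L}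
    {F : Finset (E n)} {a b c : Fin n} (h : Y1 H lab F a b c) : Y1 H lab F a c b := by
  obtain ⟨h1, h2, h3, h4, h5⟩ := h
  refine ⟨h1, h3, h2, h4.symm, ?_⟩
  constructor
  · intro h6
    exact (h5.1 (sm2c_inF_symm h6)).symm
  · intro h6
    exact sm2c_inF_symm (h5.2 h6.symm)

theorem sm2c_YY_symT {n : ℕ} {L : Type} (H : Finset (Fin n)) (lab : Fin n → Fin n → L)
    (F : Finset (E n)) : SymT (YY H lab F) := by
  have hs : ∀ u v, inF F u v ↔ inF F v u := fun u v => ⟨sm2c_inF_symm, sm2c_inF_symm⟩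
  intro a b c h
  refine ⟨?_, ?_, ?_⟩
  · rcases h with ⟨h1, h2, h3, h4⟩ | h | h | h
    · refine Or.inl ⟨h2, h1, h3, ?_⟩
      unfold YI One3 at h4 ⊢
      simp only at h4 ⊢
      rw [hs b a, hs a c, hs c b]
      tauto
    · exact Or.inr (Or.inr (Or.inl (sm2c_Y1_symm h)))
    · exact Or.inr (Or.inl (sm2c_Y1_symm h))
    · exact Or.inr (Or.inr (Or.inr (sm2c_Y1_symm h)))
  · rcases h with ⟨h1, h2, h3, h4⟩ | h | h | h
    · refine Or.inl ⟨h2, h3, h1, ?_⟩
      unfold YI One3 at h4 ⊢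
      simp only at h4 ⊢
      tauto
    · exact Or.inr (Or.inr (Or.inr h))
    · exact Or.inr (Or.inl h)
    · exact Or.inr (Or.inr (Or.inl h))
  · rintro rfl
    rcases h with ⟨h1, h2, h3, h4⟩ | h | h | h
    · unfold YI One3 at h4
      simp only at h4
      rw [hs c a] at h4
      have := @sm2c_inF_irrefl n F a
      tauto
    · exact h.2.1 h.1
    · exact h.2.2.1 h.1
    · exact h.2.2.2.1 rfl

theorem sm2c_bd_ne {n : ℕ} {a b c : Fin n} {e : Fin n × Fin n} (h : bd (a, b, c) e ≠ 0) :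
    e = (a, b) ∨ e = (b, a) ∨ e = (b, c) ∨ e = (c, b) ∨ e = (c, a) ∨ e = (a, c) := by
  by_contra hc
  push Not at hc
  obtain ⟨h1, h2, h3, h4, h5, h6⟩ := hc
  apply h
  unfold bd chi
  simp [h1, h2, h3, h4, h5, h6]

/-- two members of `F` with the same underlying pair are equal -/
theorem sm2c_eq_of_pair {n : ℕ} {e e' : E n} {a b : Fin n} (h : e.1 = (a, b) ∨ e.1 = (b, a))
    (h' : e'.1 = (a, b) ∨ e'.1 = (b, a)) : e = e' := by
  have h1 := e.2
  have h2 := e'.2
  apply Subtype.ext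
  rcases h with h | h <;> rcases h' with h' | h'
  · rw [h, h']
  · rw [h] at h1
    rw [h'] at h2
    exact absurd h1 (not_lt.2 h2.le)
  · rw [h] at h1
    rw [h'] at h2
    exact absurd h1 (not_lt.2 h2.le)
  · rw [h, h']

theorem sm2c_off {n : ℕ} {L : Type} {H : Finset (Fin n)} {lab : Fin n → Fin n → L}
    {F : Finset (E n)} (hF : ∀ e ∈ F, e.1.1 ∉ H ∧ e.1.2 ∉ H) {e e' : E n} (he : e ∈ F)
    (he' : e' ∈ F) (hne : e ≠ e') {t : Tri n} (ht : YY H lab F t) :
    (bd t e.1 : ℝ) * (bd t e'.1 : ℝ) = 0 := by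
  by_contra hcon
  obtain ⟨a, b, c⟩ := t
  have h1 : bd (a, b, c) e.1 ≠ 0 := by
    intro h
    apply hcon
    rw [h]
    simp
  have h2 : bd (a, b, c) e'.1 ≠ 0 := by
    intro h
    apply hcon
    rw [h]
    simp
  -- sides
  have side : ∀ x : E n, x ∈ F → bd (a, b, c) x.1 ≠ 0 →
      ((x.1 = (a, b) ∨ x.1 = (b, a)) ∧ inF F a b) ∨ ((x.1 = (b, c) ∨ x.1 = (c, b)) ∧ inF F b c) ∨
        ((x.1 = (c, a) ∨ x.1 = (a, c)) ∧ inF F c a) := by
    intro x hx hb
    rcases sm2c_bd_ne hb with h | h | h | h | h | h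
    · exact Or.inl ⟨Or.inl h, x, hx, Or.inl h⟩
    · exact Or.inl ⟨Or.inr h, x, hx, Or.inr h⟩
    · exact Or.inr (Or.inl ⟨Or.inl h, x, hx, Or.inl h⟩)
    · exact Or.inr (Or.inl ⟨Or.inr h, x, hx, Or.inr h⟩)
    · exact Or.inr (Or.inr ⟨Or.inl h, x, hx, Or.inl h⟩)
    · exact Or.inr (Or.inr ⟨Or.inr h, x, hx, Or.inr h⟩)
  have s1 := side e he h1
  have s2 := side e' he' h2
  have one : (inF F a b ∧ inF F b c → False) ∧ (inF F b c ∧ inF F c a → False) ∧
      (inF F c a ∧ inF F a b → False) := by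
    rcases ht with ⟨-, -, -, h4⟩ | h | h | h
    · unfold YI One3 at h4
      simp only at h4
      tauto
    · have q1 : ¬ inF F a b := fun h' => (sm2c_inF_H hF h').1 h.1
      have q2 : ¬ inF F c a := fun h' => (sm2c_inF_H hF h').2 h.1
      tauto
    · have q1 : ¬ inF F b c := fun h' => (sm2c_inF_H hF h').1 h.1
      have q2 : ¬ inF F a b := fun h' => (sm2c_inF_H hF h').2 h.1
      tauto
    · have q1 : ¬ inF F c a := fun h' => (sm2c_inF_H hF h').1 h.1
      have q2 : ¬ inF F b c := fun h' => (sm2c_inF_H hF h').2 h.1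
      tauto
  rcases s1 with ⟨p1, q1⟩ | ⟨p1, q1⟩ | ⟨p1, q1⟩ <;> rcases s2 with ⟨p2, q2⟩ | ⟨p2, q2⟩ | ⟨p2, q2⟩
  · exact hne (sm2c_eq_of_pair p1 p2)
  · exact one.1 ⟨q1, q2⟩
  · exact one.2.2 ⟨q2, q1⟩
  · exact one.1 ⟨q2, q1⟩
  · exact hne (sm2c_eq_of_pair p1 p2)
  · exact one.2.1 ⟨q1, q2⟩
  · exact one.2.2 ⟨q1, q2⟩
  · exact one.2.1 ⟨q2, q1⟩
  · exact hne (sm2c_eq_of_pair p1 p2)

theorem sm2c_sum_inc {n : ℕ} (e : E n) (f : Fin n → ℤ) :
    ∑ w, inc e.1 w * f w = f e.1.2 - f e.1.1 := by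
  unfold inc
  simp only [sub_mul, ite_mul, one_mul, zero_mul, Finset.sum_sub_distrib, Finset.sum_ite_eq',
    Finset.mem_univ, if_true]

open Classical in
/-- diagonal estimate -/
theorem sm2c_diag {n : ℕ} {L : Type} {H : Finset (Fin n)} {lab : Fin n → Fin n → L}
    {F : Finset (E n)} (hF : ∀ e ∈ F, e.1.1 ∉ H ∧ e.1.2 ∉ H) {e : E n} (he : e ∈ F) :
    ∑ t : Tri n, (if YY H lab F t then 0 else (bd t e.1 : ℝ) * (bd t e.1 : ℝ)) ≤
      6 * (hE H lab e + ∑ e'' : F, |(NN e.1 e''.1.1 : ℝ)|) := by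
  have h1 : ∑ t : Tri n, (if YY H lab F t then 0 else (bd t e.1 : ℝ) * (bd t e.1 : ℝ)) =
      ∑ t : Tri n, (bd t e.1 : ℝ) * (bd t e.1 : ℝ) -
        ∑ t : Tri n, (if YY H lab F t then (bd t e.1 : ℝ) ^ 2 else 0) := by
    rw [← Finset.sum_sub_distrib]
    refine Finset.sum_congr rfl (fun t _ => ?_)
    split_ifs <;> ring
  have h2 : ∑ v, (inc e.1 v : ℝ) * (inc e.1 v : ℝ) = 2 := by
    have h3 := sm2c_sum_inc e (fun w => inc e.1 w)
    have h4 : inc e.1 e.1.2 = 1 := by
      unfold inc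
      have := e.2
      rw [if_pos rfl, if_neg this.ne']
      norm_num
    have h5 : inc e.1 e.1.1 = -1 := by
      unfold inc
      have := e.2
      rw [if_pos rfl, if_neg this.ne]
      norm_num
    rw [h4, h5] at h3
    have h6 : ((∑ w, inc e.1 w * inc e.1 w : ℤ) : ℝ) = ((1 - -1 : ℤ) : ℝ) := by rw [h3]
    push_cast at h6
    rw [h6]
  rw [h1, sm2_diag (YY H lab F) (sm2c_YY_symT H lab F) e, sm2_gram, if_pos rfl, h2]
  -- counting
  set u := e.1.1 with hu
  set v := e.1.2 with hv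
  have huv : u < v := e.2
  have hFe := hF e he
  have hinF : inF F u v := ⟨e, he, Or.inl rfl⟩
  set S3 : Finset (Fin n) := univ.filter (fun c => c ≠ u ∧ c ≠ v ∧ (inF F u c ∨ inF F v c))
    with hS3
  have hcover : (univ : Finset (Fin n)) ⊆ ((univ.filter (fun c => YY H lab F (u, v, c)) ∪
      univ.filter (fun c => c ∈ H ∧ lab c u ≠ lab c v)) ∪ S3) ∪ {u, v} := by
    intro c _
    simp only [Finset.mem_union, Finset.mem_filter, Finset.mem_univ, true_and,
      Finset.mem_insert, Finset.mem_singleton, hS3]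
    by_contra hcon
    push Not at hcon
    obtain ⟨⟨⟨hc1, hc2⟩, hc3⟩, hc4, hc5⟩ := hcon
    have hc3' := hc3 hc4 hc5
    apply hc1
    by_cases hcH : c ∈ H
    · refine Or.inr (Or.inr (Or.inr ⟨hcH, hFe.1, hFe.2, huv.ne, ?_⟩))
      exact ⟨fun _ => hc2 hcH, fun _ => hinF⟩
    · refine Or.inl ⟨hFe.1, hFe.2, hcH, ?_⟩
      unfold YI One3
      left
      exact ⟨hinF, hc3'.2, fun h => hc3'.1 (sm2c_inF_symm h)⟩
  have hcard := Finset.card_le_card hcover
  have hc1 := Finset.card_union_le ((univ.filter (fun c => YY H lab F (u, v, c)) ∪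
      univ.filter (fun c => c ∈ H ∧ lab c u ≠ lab c v)) ∪ S3) {u, v}
  have hc2 := Finset.card_union_le (univ.filter (fun c => YY H lab F (u, v, c)) ∪
      univ.filter (fun c => c ∈ H ∧ lab c u ≠ lab c v)) S3
  have hc3 := Finset.card_union_le (univ.filter (fun c => YY H lab F (u, v, c)))
      (univ.filter (fun c => c ∈ H ∧ lab c u ≠ lab c v))
  have hc4 : ({u, v} : Finset (Fin n)).card = 2 := Finset.card_pair huv.ne
  rw [Finset.card_univ, Fintype.card_fin] at hcard
  have hnat : n ≤ (univ.filter (fun c => YY H lab F (u, v, c))).card +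
      (univ.filter (fun c => c ∈ H ∧ lab c u ≠ lab c v)).card + S3.card + 2 := by omega
  have hhE : hE H lab e = ((univ.filter (fun c => c ∈ H ∧ lab c u ≠ lab c v)).card : ℝ) := by
    unfold hE cnt
    rw [if_pos hFe]
    congr 2
    ext c
    simp only [Finset.mem_filter, hu, hv]
  -- S3
  have hS3c : (S3.card : ℝ) ≤ ∑ e'' : F, |(NN e.1 e''.1.1 : ℝ)| := by
    have hch : ∀ c ∈ S3, ∃ x : F, (x.1.1 = (u, c) ∨ x.1.1 = (c, u) ∨ x.1.1 = (v, c) ∨
        x.1.1 = (c, v)) := by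
      intro c hc
      rw [hS3, Finset.mem_filter] at hc
      rcases hc.2.2.2 with ⟨x, hx, h | h⟩ | ⟨x, hx, h | h⟩
      · exact ⟨⟨x, hx⟩, Or.inl h⟩
      · exact ⟨⟨x, hx⟩, Or.inr (Or.inl h)⟩
      · exact ⟨⟨x, hx⟩, Or.inr (Or.inr (Or.inl h))⟩
      · exact ⟨⟨x, hx⟩, Or.inr (Or.inr (Or.inr h))⟩
    have hE' : Nonempty F := ⟨⟨e, he⟩⟩
    set φ : Fin n → F := fun c => if hc : c ∈ S3 then (hch c hc).choose else ⟨e, he⟩ with hφ
    have hφs : ∀ c ∈ S3, ((φ c).1.1 = (u, c) ∨ (φ c).1.1 = (c, u) ∨ (φ c).1.1 = (v, c) ∨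
        (φ c).1.1 = (c, v)) := by
      intro c hc
      simp only [hφ, dif_pos hc]
      exact (hch c hc).choose_spec
    have hinj : Set.InjOn φ S3 := by
      intro c hc c' hc' hcc
      have hc0 := hc
      have hc0' := hc'
      rw [Finset.mem_coe, hS3, Finset.mem_filter] at hc0 hc0'
      have h3 := hφs c hc
      have h4 := hφs c' hc'
      rw [← hcc] at h4
      obtain ⟨-, n1, n2, -⟩ := hc0
      obtain ⟨-, n3, n4, -⟩ := hc0'
      rcases h3 with h3 | h3 | h3 | h3 <;> rw [h3] at h4 <;>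
        rcases h4 with h4 | h4 | h4 | h4 <;> rw [Prod.mk.injEq] at h4 <;>
        first
          | exact h4.1
          | exact h4.2
          | exact absurd h4.1 n1
          | exact absurd h4.1 n2
          | exact absurd h4.2 n1
          | exact absurd h4.2 n2
          | exact absurd h4.1.symm n3
          | exact absurd h4.1.symm n4
          | exact absurd h4.2.symm n3
          | exact absurd h4.2.symm n4
    have hone : ∀ c ∈ S3, (1 : ℝ) ≤ |(NN e.1 (φ c).1.1 : ℝ)| := by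
      intro c hc
      have hc0 := hc
      rw [hS3, Finset.mem_filter] at hc0
      obtain ⟨-, n1, n2, -⟩ := hc0
      have h3 := hφs c hc
      have hne : ¬ e.1 = (φ c).1.1 := by
        intro h4
        have h5 : e.1 = (u, v) := rfl
        rw [h5] at h4
        rcases h3 with h3 | h3 | h3 | h3 <;> rw [h3, Prod.mk.injEq] at h4
        · exact n2 h4.2.symm
        · exact n1 h4.1.symm
        · exact huv.ne h4.1
        · exact n1 h4.1.symm
      have hval : NN e.1 (φ c).1.1 = inc (φ c).1.1 v - inc (φ c).1.1 u := by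
        unfold NN
        rw [if_neg hne]
        exact sm2c_sum_inc e _
      have habs : NN e.1 (φ c).1.1 = 1 ∨ NN e.1 (φ c).1.1 = -1 := by
        rw [hval]
        unfold inc
        rcases h3 with h3 | h3 | h3 | h3 <;> rw [h3] <;>
          simp [n1.symm, n2.symm, huv.ne, huv.ne']
      rcases habs with h | h <;> rw [h] <;> norm_num
    calc (S3.card : ℝ) = ∑ c ∈ S3, (1 : ℝ) := by simp
      _ ≤ ∑ c ∈ S3, |(NN e.1 (φ c).1.1 : ℝ)| := Finset.sum_le_sum hone
      _ = ∑ x ∈ S3.image φ, |(NN e.1 x.1.1 : ℝ)| := by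
          rw [Finset.sum_image hinj]
      _ ≤ ∑ e'' : F, |(NN e.1 e''.1.1 : ℝ)| :=
          Finset.sum_le_sum_of_subset_of_nonneg (Finset.subset_univ _)
            (fun _ _ _ => abs_nonneg _)
  have hcnt : (cnt (fun c : Fin n => YY H lab F (u, v, c)) : ℝ) =
      ((univ.filter (fun c => YY H lab F (u, v, c))).card : ℝ) := rfl
  rw [hcnt, hhE]
  have hreal : (n : ℝ) ≤ ((univ.filter (fun c => YY H lab F (u, v, c))).card : ℝ) +
      ((univ.filter (fun c => c ∈ H ∧ lab c u ≠ lab c v)).card : ℝ) + S3.card + 2 := by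
    exact_mod_cast hnat
  linarith

/-- BLOCK SM2c -/
theorem LF_le_pr {L : Type} (n : ℕ) (hn : 1 ≤ n) (H : Finset (Fin n)) (lab : Fin n → Fin n → L)
    (F : Finset (E n)) (hF : ∀ e ∈ F, e.1.1 ∉ H ∧ e.1.2 ∉ H) :
    ((1 / (6 * (n : ℝ))) • LF F (YY H lab F)).det ≤
      ((n : ℝ) ^ F.card)⁻¹ * (AF F (hE H lab)).det := by
  classical
  have hn' : (n : ℝ) ≠ 0 := by positivity
  set A := (1 / 6 : ℝ) • LF F (YY H lab F) with hA
  have hform : ∀ x : F → ℝ, star x ⬝ᵥ (LF F (YY H lab F) *ᵥ x) =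
      ∑ t : Tri n, (if YY H lab F t then 0 else (∑ e : F, (bd t e.1.1 : ℝ) * x e) ^ 2) := by
    intro x
    have h1 : ∀ t : Tri n, (if YY H lab F t then 0 else
        (∑ e : F, (bd t e.1.1 : ℝ) * x e) ^ 2) = ∑ e : F, ∑ e' : F,
        x e * ((if YY H lab F t then 0 else (bd t e.1.1 : ℝ) * (bd t e'.1.1 : ℝ)) * x e') := by
      intro t
      split_ifs
      · simp
      · rw [sq, Finset.sum_mul_sum]
        exact Finset.sum_congr rfl (fun e _ => Finset.sum_congr rfl (fun e' _ => by ring))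
    simp only [h1]
    rw [Finset.sum_comm]
    unfold LF
    simp only [dotProduct, Matrix.mulVec, Matrix.of_apply, star_trivial, Finset.mul_sum,
      Finset.sum_mul]
    refine Finset.sum_congr rfl (fun e _ => ?_)
    rw [Finset.sum_comm]
  have hherm : (LF F (YY H lab F)).IsHermitian := by
    ext e e'
    unfold LF
    simp only [Matrix.conjTranspose_apply, Matrix.of_apply, star_trivial]
    refine Finset.sum_congr rfl (fun t _ => ?_)
    split_ifs
    · rfl
    · ring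
  have hApsd : A.PosSemidef := by
    refine Matrix.PosSemidef.of_dotProduct_mulVec_nonneg ?_ (fun x => ?_)
    · unfold Matrix.IsHermitian
      rw [hA, Matrix.conjTranspose_smul, hherm.eq, star_trivial]
    · rw [hA, Matrix.smul_mulVec, dotProduct_smul, hform, smul_eq_mul]
      refine mul_nonneg (by norm_num) (Finset.sum_nonneg (fun t _ => ?_))
      split_ifs
      · exact le_rfl
      · exact sq_nonneg _
  set d : F → ℝ := fun e => (AF F (hE H lab)) e e - A e e with hd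
  have hdiag : AF F (hE H lab) - A = Matrix.diagonal d := by
    ext e e'
    rw [Matrix.sub_apply]
    by_cases h : e = e'
    · subst h
      rw [Matrix.diagonal_apply_eq]
    · rw [Matrix.diagonal_apply_ne _ h]
      have hne : e.1 ≠ e'.1 := fun h' => h (Subtype.ext h')
      have hne2 : ¬ e.1.1 = e'.1.1 := fun h' => hne (Subtype.ext h')
      have h1 : LF F (YY H lab F) e e' = -6 * (NN e.1.1 e'.1.1 : ℝ) := by
        have h2 : LF F (YY H lab F) e e' = ∑ t : Tri n, (bd t e.1.1 : ℝ) * (bd t e'.1.1 : ℝ) := by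
          unfold LF
          rw [Matrix.of_apply]
          refine Finset.sum_congr rfl (fun t _ => ?_)
          split_ifs with ht
          · exact (sm2c_off hF e.2 e'.2 hne ht).symm
          · rfl
        rw [h2, sm2_gram, if_neg hne]
        unfold NN
        rw [if_neg hne2]
        push_cast
        ring
      rw [hA, Matrix.smul_apply, h1, smul_eq_mul]
      unfold AF
      rw [Matrix.of_apply, if_neg h]
      ring
  have hd0 : ∀ e, 0 ≤ d e := by
    intro e
    have h1 := sm2c_diag (lab := lab) hF e.2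
    have h2 : A e e = (1 / 6) * ∑ t : Tri n, (if YY H lab F t then 0 else
        (bd t e.1.1 : ℝ) * (bd t e.1.1 : ℝ)) := by
      rw [hA, Matrix.smul_apply, smul_eq_mul]
      unfold LF
      rw [Matrix.of_apply]
    have h3 : (AF F (hE H lab)) e e = hE H lab e.1 + ∑ e'' : F, |(NN e.1.1 e''.1.1 : ℝ)| := by
      unfold AF
      rw [Matrix.of_apply, if_pos rfl]
      unfold NN
      rw [if_pos rfl]
      push_cast
      ring
    simp only [hd]
    rw [h2, h3]
    linarith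
  have hBA : (AF F (hE H lab) - A).PosSemidef := by
    rw [hdiag]
    exact Matrix.PosSemidef.diagonal hd0
  have hmono := det_mono A (AF F (hE H lab)) hApsd hBA
  have hscale : ((1 / (6 * (n : ℝ))) • LF F (YY H lab F)) = (1 / (n : ℝ)) • A := by
    rw [hA, smul_smul]
    congr 1
    field_simp
  rw [hscale, Matrix.det_smul, Fintype.card_coe, one_div, inv_pow]
  exact mul_le_mul_of_nonneg_left hmono (by positivity)

end Pool.Agent.HT
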