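import Pool.Agent.Lib_helper59.HT.Defs2
import Pool.Agent.Lib_helper16.HT.SM2c

set_option autoImplicit false

open Finset Matrix

namespace Pool.Agent.HT

theorem sm2d_prod_pairs {n : ℕ} (g : Fin n → Fin n → ℝ) (hg : ∀ u, g u u = 1) :
    ∏ u, ∏ v, g u v = ∏ e : E n, (g e.1.1 e.1.2 * g e.1.2 e.1.1) := by
  have h1 : ∀ u v, g u v = (if u < v then g u v else 1) * (if v < u then g u v else 1) := by
    intro u v
    rcases lt_trichotomy u v with h | h | h
    · rw [if_pos h, if_neg (not_lt.mpr h.le), mul_one]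
    · subst h
      simp [hg]
    · rw [if_neg (not_lt.mpr h.le), if_pos h, one_mul]
  have h2 : ∏ u, ∏ v, g u v = (∏ u, ∏ v, (if u < v then g u v else 1)) *
      (∏ u, ∏ v, (if v < u then g u v else 1)) := by
    rw [← Finset.prod_mul_distrib]
    refine Finset.prod_congr rfl fun u _ => ?_
    rw [← Finset.prod_mul_distrib]
    exact Finset.prod_congr rfl fun v _ => h1 u v
  have h3 : ∏ u, ∏ v, (if v < u then g u v else 1) = ∏ u, ∏ v, (if u < v then g v u else 1) :=
    Finset.prod_comm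
  have h4 : ∏ u : Fin n, ((∏ v, (if u < v then g u v else 1)) *
      ∏ v, (if u < v then g v u else 1)) = ∏ u, ∏ v, (if u < v then g u v * g v u else 1) := by
    refine Finset.prod_congr rfl fun u _ => ?_
    rw [← Finset.prod_mul_distrib]
    refine Finset.prod_congr rfl fun v _ => ?_
    split_ifs <;> simp
  rw [h2, h3, ← Finset.prod_mul_distrib, h4,
    ← Fintype.prod_prod_type (f := fun p : Fin n × Fin n =>
      if p.1 < p.2 then g p.1 p.2 * g p.2 p.1 else 1), ← Finset.prod_filter]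
  exact Finset.prod_subtype _ (by simp) (fun p : Fin n × Fin n => g p.1 p.2 * g p.2 p.1)

theorem sm2d_sum_pairs {n : ℕ} (g : Fin n → Fin n → ℝ) (hg : ∀ u, g u u = 0) :
    ∑ u, ∑ v, g u v = ∑ e : E n, (g e.1.1 e.1.2 + g e.1.2 e.1.1) := by
  have h1 : ∀ u v, g u v = (if u < v then g u v else 0) + (if v < u then g u v else 0) := by
    intro u v
    rcases lt_trichotomy u v with h | h | h
    · rw [if_pos h, if_neg (not_lt.mpr h.le), add_zero]
    · subst h
      simp [hg]
    · rw [if_neg (not_lt.mpr h.le), if_pos h, zero_add]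
  have h2 : ∑ u, ∑ v, g u v = (∑ u, ∑ v, (if u < v then g u v else 0)) +
      (∑ u, ∑ v, (if v < u then g u v else 0)) := by
    rw [← Finset.sum_add_distrib]
    refine Finset.sum_congr rfl fun u _ => ?_
    rw [← Finset.sum_add_distrib]
    exact Finset.sum_congr rfl fun v _ => h1 u v
  have h3 : ∑ u, ∑ v, (if v < u then g u v else 0) = ∑ u, ∑ v, (if u < v then g v u else 0) :=
    Finset.sum_comm
  have h4 : ∑ u : Fin n, ((∑ v, (if u < v then g u v else 0)) +
      ∑ v, (if u < v then g v u else 0)) = ∑ u, ∑ v, (if u < v then g u v + g v u else 0) := by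
    refine Finset.sum_congr rfl fun u _ => ?_
    rw [← Finset.sum_add_distrib]
    refine Finset.sum_congr rfl fun v _ => ?_
    split_ifs <;> simp
  rw [h2, h3, ← Finset.sum_add_distrib, h4,
    ← Fintype.sum_prod_type (f := fun p : Fin n × Fin n =>
      if p.1 < p.2 then g p.1 p.2 + g p.2 p.1 else 0), ← Finset.sum_filter]
  exact Finset.sum_subtype _ (by simp) (fun p : Fin n × Fin n => g p.1 p.2 + g p.2 p.1)

theorem sm2d_cnt {α : Type*} [Fintype α] (p : α → Prop) [DecidablePred p] :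
    (univ.filter p).card = cnt p := by
  unfold cnt
  congr 1
  ext x
  simp only [Finset.mem_filter]

/-- two-paths outside `H` with only the first edge in `F` and no chord -/
def sm2dT {n : ℕ} (H : Finset (Fin n)) (F : Finset (E n)) (a b c : Fin n) : Prop :=
  a ∉ H ∧ b ∉ H ∧ c ∉ H ∧ inF F a b ∧ ¬ inF F b c ∧ ¬ inF F a c

open Classical in
theorem sm2d_mixed {n : ℕ} {L : Type} {H : Finset (Fin n)} {lab : Fin n → Fin n → L}
    {F : Finset (E n)} {v x : Fin n} (hv : v ∈ H) (hx : x ∉ H) :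
    (n : ℝ) ≤ (cnt (fun c => YY H lab F (v, x, c)) : ℝ) +
      ((H.card : ℝ) + dg F x + cnt (fun y => y ∉ H ∧ lab v y = lab v x)) := by
  have hcover : (univ : Finset (Fin n)) ⊆ ((univ.filter (fun c => YY H lab F (v, x, c)) ∪
      H) ∪ univ.filter (fun u => inF F x u)) ∪
        univ.filter (fun y => y ∉ H ∧ lab v y = lab v x) := by
    intro c _
    simp only [Finset.mem_union, Finset.mem_filter, Finset.mem_univ, true_and]
    by_contra hcon
    push Not at hcon
    obtain ⟨⟨⟨hc1, hc2⟩, hc3⟩, hc4⟩ := hcon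
    apply hc1
    refine Or.inr (Or.inl ⟨hv, hx, hc2, ?_, ?_⟩)
    · intro h
      have h' : x = c := h
      exact hc4 hc2 (by rw [h'])
    · exact ⟨fun h => absurd h hc3, fun h => absurd h.symm (hc4 hc2)⟩
  have hcard := Finset.card_le_card hcover
  rw [Finset.card_univ, Fintype.card_fin] at hcard
  have hc1 := Finset.card_union_le ((univ.filter (fun c => YY H lab F (v, x, c)) ∪
      H) ∪ univ.filter (fun u => inF F x u)) (univ.filter (fun y => y ∉ H ∧ lab v y = lab v x))
  have hc2 := Finset.card_union_le (univ.filter (fun c => YY H lab F (v, x, c)) ∪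
      H) (univ.filter (fun u => inF F x u))
  have hc3 := Finset.card_union_le (univ.filter (fun c => YY H lab F (v, x, c))) H
  rw [sm2d_cnt] at hc1 hc2 hc3
  have hnat : n ≤ cnt (fun c => YY H lab F (v, x, c)) + (H.card + dg F x +
      cnt (fun y => y ∉ H ∧ lab v y = lab v x)) := by
    unfold dg
    omega
  exact_mod_cast hnat

open Classical in
theorem sm2d_light {n : ℕ} {L : Type} {H : Finset (Fin n)} {lab : Fin n → Fin n → L}
    {F : Finset (E n)} {e : E n} (he : ¬ inF F e.1.1 e.1.2) (h1 : e.1.1 ∉ H) (h2 : e.1.2 ∉ H) :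
    (cnt (fun c => sm2dT H F e.1.1 c e.1.2) : ℝ) + cnt (fun c => sm2dT H F e.1.2 c e.1.1) +
      hE H lab e ≤ cnt (fun c => YY H lab F (e.1.1, e.1.2, c)) := by
  unfold hE
  rw [if_pos ⟨h1, h2⟩]
  set u := e.1.1 with hu
  set v := e.1.2 with hv
  have huv : u < v := e.2
  have hsub : (univ.filter (fun c => sm2dT H F u c v) ∪ univ.filter (fun c => sm2dT H F v c u)) ∪
      univ.filter (fun w => w ∈ H ∧ lab w u ≠ lab w v) ⊆
        univ.filter (fun c => YY H lab F (u, v, c)) := by
    intro c hc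
    simp only [Finset.mem_union, Finset.mem_filter, Finset.mem_univ, true_and] at hc ⊢
    rcases hc with (hc | hc) | hc
    · obtain ⟨-, k2, -, k4, k5, k6⟩ := hc
      refine Or.inl ⟨h1, h2, k2, ?_⟩
      unfold YI One3
      right; right
      exact ⟨he, fun h => k5 (sm2c_inF_symm h), sm2c_inF_symm k4⟩
    · obtain ⟨-, k2, -, k4, k5, k6⟩ := hc
      refine Or.inl ⟨h1, h2, k2, ?_⟩
      unfold YI One3
      right; left
      exact ⟨he, k4, k5⟩
    · refine Or.inr (Or.inr (Or.inr ⟨hc.1, h1, h2, huv.ne, ?_⟩))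
      exact ⟨fun h => absurd h he, fun h => absurd h hc.2⟩
  have hcard := Finset.card_le_card hsub
  have hd1 : Disjoint (univ.filter (fun c => sm2dT H F u c v))
      (univ.filter (fun c => sm2dT H F v c u)) := by
    rw [Finset.disjoint_filter]
    rintro c - ⟨-, -, -, k4, k5, -⟩ ⟨-, -, -, k4', -, -⟩
    exact k5 (sm2c_inF_symm k4')
  have hd2 : Disjoint (univ.filter (fun c => sm2dT H F u c v) ∪
      univ.filter (fun c => sm2dT H F v c u))
      (univ.filter (fun w => w ∈ H ∧ lab w u ≠ lab w v)) := by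
    rw [Finset.disjoint_left]
    intro c hc hc'
    simp only [Finset.mem_union, Finset.mem_filter, Finset.mem_univ, true_and] at hc hc'
    rcases hc with hc | hc
    · exact hc.2.1 hc'.1
    · exact hc.2.1 hc'.1
  rw [Finset.card_union_of_disjoint hd2, Finset.card_union_of_disjoint hd1] at hcard
  have hcard' : ((univ.filter (fun c => sm2dT H F u c v)).card : ℝ) +
      ((univ.filter (fun c => sm2dT H F v c u)).card : ℝ) +
      ((univ.filter (fun w => w ∈ H ∧ lab w u ≠ lab w v)).card : ℝ) ≤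
      ((univ.filter (fun c => YY H lab F (u, v, c))).card : ℝ) := by exact_mod_cast hcard
  rw [sm2d_cnt, sm2d_cnt, sm2d_cnt, sm2d_cnt] at hcard'
  exact hcard'

open Classical in
theorem sm2d_inner {n : ℕ} {H : Finset (Fin n)}
    {F : Finset (E n)} {u v : Fin n} (huv : inF F u v) (hu : u ∉ H) (hv : v ∉ H) :
    (n : ℝ) ≤ (cnt (fun c => sm2dT H F u v c) : ℝ) + (H.card + 2 + dg F u + dg F v) := by
  have hcover : (univ : Finset (Fin n)) ⊆ (((univ.filter (fun c => sm2dT H F u v c) ∪
      H) ∪ {u, v}) ∪ univ.filter (fun c => inF F u c)) ∪ univ.filter (fun c => inF F v c) := by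
    intro c _
    simp only [Finset.mem_union, Finset.mem_filter, Finset.mem_univ, true_and,
      Finset.mem_insert, Finset.mem_singleton]
    by_contra hcon
    push Not at hcon
    obtain ⟨⟨⟨⟨hc1, hc2⟩, hc5⟩, hc3⟩, hc4⟩ := hcon
    exact hc1 ⟨hu, hv, hc2, huv, hc4, hc3⟩
  have hcard := Finset.card_le_card hcover
  rw [Finset.card_univ, Fintype.card_fin] at hcard
  have hc1 := Finset.card_union_le (((univ.filter (fun c => sm2dT H F u v c) ∪
      H) ∪ {u, v}) ∪ univ.filter (fun c => inF F u c)) (univ.filter (fun c => inF F v c))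
  have hc2 := Finset.card_union_le ((univ.filter (fun c => sm2dT H F u v c) ∪
      H) ∪ {u, v}) (univ.filter (fun c => inF F u c))
  have hc3 := Finset.card_union_le (univ.filter (fun c => sm2dT H F u v c) ∪ H) {u, v}
  have hc4 := Finset.card_union_le (univ.filter (fun c => sm2dT H F u v c)) H
  have hc5 : ({u, v} : Finset (Fin n)).card ≤ 2 := Finset.card_le_two
  have hnat : n ≤ cnt (fun c => sm2dT H F u v c) + (H.card + 2 + dg F u + dg F v) := by
    unfold dg cnt
    omega
  exact_mod_cast hnat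

open Classical in
theorem sm2d_count {n : ℕ} {H : Finset (Fin n)}
    {F : Finset (E n)} (hF : ∀ e ∈ F, e.1.1 ∉ H ∧ e.1.2 ∉ H)
    (D : ℝ) (hD : ∀ v, (dg F v : ℝ) ≤ D) :
    2 * F.card * ((n : ℝ) - H.card - 2 - 2 * D) ≤
      ∑ e : E n, ((cnt (fun c => sm2dT H F e.1.1 c e.1.2) : ℝ) +
        cnt (fun c => sm2dT H F e.1.2 c e.1.1)) := by
  have hirr : ∀ u, ¬ inF F u u := fun u => sm2c_inF_irrefl
  rw [← sm2d_sum_pairs (fun u v => (cnt (fun c => sm2dT H F u c v) : ℝ))
    (fun u => by
      have : cnt (fun c => sm2dT H F u c u) = 0 := by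
        unfold cnt
        rw [Finset.card_eq_zero, Finset.filter_eq_empty_iff]
        rintro c - ⟨-, -, -, k4, k5, -⟩
        exact k5 (sm2c_inF_symm k4)
      rw [this, Nat.cast_zero])]
  have hsw : ∑ u, ∑ v, (cnt (fun c => sm2dT H F u c v) : ℝ) =
      ∑ u, ∑ v, (cnt (fun c => sm2dT H F u v c) : ℝ) := by
    refine Finset.sum_congr rfl fun u _ => ?_
    have h1 : ∀ v, (cnt (fun c => sm2dT H F u c v) : ℝ) =
        ∑ c, if sm2dT H F u c v then (1 : ℝ) else 0 := by
      intro v
      unfold cnt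
      rw [Finset.sum_boole]
    have h2 : ∀ v, (cnt (fun c => sm2dT H F u v c) : ℝ) =
        ∑ c, if sm2dT H F u v c then (1 : ℝ) else 0 := by
      intro v
      unfold cnt
      rw [Finset.sum_boole]
    simp only [h1, h2]
    exact Finset.sum_comm
  rw [hsw, sm2d_sum_pairs (fun u v => (cnt (fun c => sm2dT H F u v c) : ℝ))
    (fun u => by
      have : cnt (fun c => sm2dT H F u u c) = 0 := by
        unfold cnt
        rw [Finset.card_eq_zero, Finset.filter_eq_empty_iff]
        rintro c - ⟨-, -, -, k4, -, -⟩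
        exact hirr u k4
      rw [this, Nat.cast_zero])]
  have hle : ∑ e ∈ F, ((cnt (fun c => sm2dT H F e.1.1 e.1.2 c) : ℝ) +
        cnt (fun c => sm2dT H F e.1.2 e.1.1 c)) ≤
      ∑ e : E n, ((cnt (fun c => sm2dT H F e.1.1 e.1.2 c) : ℝ) +
        cnt (fun c => sm2dT H F e.1.2 e.1.1 c)) :=
    Finset.sum_le_sum_of_subset_of_nonneg (Finset.subset_univ _)
      (fun _ _ _ => by positivity)
  refine le_trans ?_ hle
  have hconst : 2 * F.card * ((n : ℝ) - H.card - 2 - 2 * D) =
      ∑ e ∈ F, 2 * ((n : ℝ) - H.card - 2 - 2 * D) := by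
    rw [Finset.sum_const, nsmul_eq_mul]
    ring
  rw [hconst]
  refine Finset.sum_le_sum fun e he => ?_
  have hin : inF F e.1.1 e.1.2 := ⟨e, he, Or.inl rfl⟩
  have h1 := sm2d_inner (H := H) hin (hF e he).1 (hF e he).2
  have h2 := sm2d_inner (H := H) (sm2c_inF_symm hin) (hF e he).2 (hF e he).1
  have h3 := hD e.1.1
  have h4 := hD e.1.2
  linarith

theorem sm2d_hE_le {n : ℕ} {L : Type} (H : Finset (Fin n)) (lab : Fin n → Fin n → L)
    (e : E n) : hE H lab e ≤ H.card := by
  classical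
  unfold hE
  split_ifs
  · unfold cnt
    have : (univ.filter (fun v => v ∈ H ∧ lab v e.1.1 ≠ lab v e.1.2)).card ≤ H.card :=
      Finset.card_le_card (fun c hc => (Finset.mem_filter.mp hc).2.1)
    exact_mod_cast this
  · positivity

theorem prod_bound_pr {L : Type} (n : ℕ) (hn : 1 ≤ n) (H : Finset (Fin n))
    (lab : Fin n → Fin n → L) (F : Finset (E n)) (hF : ∀ e ∈ F, e.1.1 ∉ H ∧ e.1.2 ∉ H)
    (D : ℝ) (hD : ∀ v, (dg F v : ℝ) ≤ D) :
    ∏ e ∈ Fᶜ, (1 - (cnt (fun c : Fin n => YY H lab F (e.1.1, e.1.2, c)) : ℝ) / n) ≤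
      Real.exp (-((2 * F.card * (n - H.card - 2 - 2 * D) + ∑ e, hE H lab e
        - F.card * H.card) / n)) *
      ∏ v ∈ H, ∏ x ∈ Hᶜ,
        (((H.card : ℝ) + dg F x + cnt (fun y => y ∉ H ∧ lab v y = lab v x)) / n) := by
  classical
  have hn' : (0 : ℝ) < n := by exact_mod_cast hn
  set G : Fin n → Fin n → ℝ := fun v x =>
    ((H.card : ℝ) + dg F x + cnt (fun y => y ∉ H ∧ lab v y = lab v x)) / n with hG
  set g : Fin n → Fin n → ℝ := fun u v => (cnt (fun c => sm2dT H F u c v) : ℝ) with hg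
  set B : Fin n → Fin n → ℝ := fun v x => if v ∈ H ∧ x ∉ H then G v x else 1 with hB
  have hcle : ∀ e : E n, (cnt (fun c : Fin n => YY H lab F (e.1.1, e.1.2, c)) : ℝ) ≤ n := by
    intro e
    have : cnt (fun c : Fin n => YY H lab F (e.1.1, e.1.2, c)) ≤ n := by
      unfold cnt
      exact (Finset.card_le_univ _).trans (by rw [Fintype.card_fin])
    exact_mod_cast this
  have hG0 : ∀ v x, 0 ≤ G v x := fun v x => by simp only [hG]; positivity
  have hg0 : ∀ u v, (u ∈ H ∨ v ∈ H ∨ inF F u v) → g u v = 0 := by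
    intro u v h
    simp only [hg]
    have : cnt (fun c => sm2dT H F u c v) = 0 := by
      unfold cnt
      rw [Finset.card_eq_zero, Finset.filter_eq_empty_iff]
      rintro c - ⟨k1, -, k3, -, -, k6⟩
      tauto
    rw [this, Nat.cast_zero]
  have hfac : ∀ e ∈ Fᶜ, (1 - (cnt (fun c : Fin n => YY H lab F (e.1.1, e.1.2, c)) : ℝ) / n) ≤
      Real.exp (-(g e.1.1 e.1.2 + g e.1.2 e.1.1 + hE H lab e) / n) *
        (B e.1.1 e.1.2 * B e.1.2 e.1.1) := by
    intro e he
    rw [Finset.mem_compl] at he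
    have hnin : ¬ inF F e.1.1 e.1.2 := by
      rintro ⟨e', he', h | h⟩
      · apply he
        have : e' = e := Subtype.ext h
        rwa [← this]
      · have h1 := e.2
        have h2 := e'.2
        rw [h] at h2
        exact absurd h2 (not_lt.mpr h1.le)
    by_cases h1 : e.1.1 ∈ H <;> by_cases h2 : e.1.2 ∈ H
    · -- both heavy
      have hh : hE H lab e = 0 := by
        unfold hE
        rw [if_neg (by tauto)]
      rw [hg0 _ _ (Or.inl h1), hg0 _ _ (Or.inl h2), hh]
      have hb1 : B e.1.1 e.1.2 = 1 := by simp only [hB]; rw [if_neg (by tauto)]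
      have hb2 : B e.1.2 e.1.1 = 1 := by simp only [hB]; rw [if_neg (by tauto)]
      rw [hb1, hb2]
      simp only [add_zero, neg_zero, zero_div, Real.exp_zero, mul_one]
      have : (0 : ℝ) ≤ (cnt (fun c : Fin n => YY H lab F (e.1.1, e.1.2, c)) : ℝ) / n := by
        positivity
      linarith
    · have hh : hE H lab e = 0 := by
        unfold hE
        rw [if_neg (by tauto)]
      rw [hg0 _ _ (Or.inl h1), hg0 _ _ (Or.inr (Or.inl h1)), hh]
      have hb1 : B e.1.1 e.1.2 = G e.1.1 e.1.2 := by simp only [hB]; rw [if_pos ⟨h1, h2⟩]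
      have hb2 : B e.1.2 e.1.1 = 1 := by simp only [hB]; rw [if_neg (by tauto)]
      rw [hb1, hb2]
      simp only [add_zero, neg_zero, zero_div, Real.exp_zero, mul_one, one_mul]
      have hm := sm2d_mixed (lab := lab) (F := F) h1 h2
      simp only [hG]
      rw [sub_le_iff_le_add, ← add_div, le_div_iff₀ hn', one_mul]
      linarith
    · have hh : hE H lab e = 0 := by
        unfold hE
        rw [if_neg (by tauto)]
      rw [hg0 _ _ (Or.inr (Or.inl h2)), hg0 _ _ (Or.inl h2), hh]
      have hb1 : B e.1.2 e.1.1 = G e.1.2 e.1.1 := by simp only [hB]; rw [if_pos ⟨h2, h1⟩]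
      have hb2 : B e.1.1 e.1.2 = 1 := by simp only [hB]; rw [if_neg (by tauto)]
      rw [hb1, hb2]
      simp only [add_zero, neg_zero, zero_div, Real.exp_zero, one_mul]
      have hm := sm2d_mixed (lab := lab) (F := F) h2 h1
      have hsw : cnt (fun c : Fin n => YY H lab F (e.1.1, e.1.2, c)) =
          cnt (fun c : Fin n => YY H lab F (e.1.2, e.1.1, c)) := by
        unfold cnt
        congr 1
        ext c
        simp only [Finset.mem_filter, Finset.mem_univ, true_and]
        exact ⟨fun h => (sm2c_YY_symT H lab F _ _ _ h).1,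
          fun h => (sm2c_YY_symT H lab F _ _ _ h).1⟩
      rw [hsw]
      simp only [hG]
      rw [sub_le_iff_le_add, ← add_div, le_div_iff₀ hn', one_mul]
      linarith
    · -- both light
      have hb1 : B e.1.2 e.1.1 = 1 := by simp only [hB]; rw [if_neg (by tauto)]
      have hb2 : B e.1.1 e.1.2 = 1 := by simp only [hB]; rw [if_neg (by tauto)]
      rw [hb1, hb2, mul_one, mul_one]
      have hl := sm2d_light (lab := lab) hnin h1 h2
      have h3 := Real.add_one_le_exp (-(g e.1.1 e.1.2 + g e.1.2 e.1.1 + hE H lab e) / n)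
      refine le_trans ?_ h3
      have h4 : (g e.1.1 e.1.2 + g e.1.2 e.1.1 + hE H lab e) / n ≤
          (cnt (fun c : Fin n => YY H lab F (e.1.1, e.1.2, c)) : ℝ) / n :=
        div_le_div_of_nonneg_right hl hn'.le
      rw [neg_div]
      linarith
  have hpos : ∀ e ∈ Fᶜ, (0 : ℝ) ≤
      (1 - (cnt (fun c : Fin n => YY H lab F (e.1.1, e.1.2, c)) : ℝ) / n) := by
    intro e _
    rw [sub_nonneg, div_le_one hn']
    exact hcle e
  refine (Finset.prod_le_prod hpos hfac).trans ?_
  rw [Finset.prod_mul_distrib, ← Real.exp_sum]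
  have hBprod : ∏ e ∈ Fᶜ, (B e.1.1 e.1.2 * B e.1.2 e.1.1) =
      ∏ v ∈ H, ∏ x ∈ Hᶜ, G v x := by
    have h1 : ∏ e ∈ Fᶜ, (B e.1.1 e.1.2 * B e.1.2 e.1.1) =
        ∏ e : E n, (B e.1.1 e.1.2 * B e.1.2 e.1.1) := by
      refine Finset.prod_subset (Finset.subset_univ _) (fun e _ he => ?_)
      rw [Finset.mem_compl, not_not] at he
      have h2 := hF e he
      have hb1 : B e.1.2 e.1.1 = 1 := by simp only [hB]; rw [if_neg (by tauto)]
      have hb2 : B e.1.1 e.1.2 = 1 := by simp only [hB]; rw [if_neg (by tauto)]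
      rw [hb1, hb2, mul_one]
    rw [h1, ← sm2d_prod_pairs B (fun u => by simp only [hB]; rw [if_neg (by tauto)])]
    rw [← Finset.prod_subset (Finset.subset_univ H)]
    · refine Finset.prod_congr rfl fun v hv => ?_
      rw [← Finset.prod_subset (Finset.subset_univ Hᶜ)]
      · refine Finset.prod_congr rfl fun x hx => ?_
        rw [Finset.mem_compl] at hx
        simp only [hB]
        rw [if_pos ⟨hv, hx⟩]
      · intro x _ hx
        rw [Finset.mem_compl, not_not] at hx
        simp only [hB]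
        rw [if_neg (by tauto)]
    · intro v _ hv
      refine Finset.prod_eq_one fun x _ => ?_
      simp only [hB]
      rw [if_neg (by tauto)]
  rw [hBprod]
  refine mul_le_mul_of_nonneg_right ?_
    (Finset.prod_nonneg fun v _ => Finset.prod_nonneg fun x _ => hG0 v x)
  rw [Real.exp_le_exp, ← Finset.sum_div, ← neg_div]
  refine div_le_div_of_nonneg_right ?_ hn'.le
  rw [Finset.sum_neg_distrib, neg_le_neg_iff, Finset.sum_add_distrib]
  have h1 : ∑ e ∈ Fᶜ, (g e.1.1 e.1.2 + g e.1.2 e.1.1) =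
      ∑ e : E n, (g e.1.1 e.1.2 + g e.1.2 e.1.1) := by
    refine Finset.sum_subset (Finset.subset_univ _) (fun e _ he => ?_)
    rw [Finset.mem_compl, not_not] at he
    have hin : inF F e.1.1 e.1.2 := ⟨e, he, Or.inl rfl⟩
    rw [hg0 _ _ (Or.inr (Or.inr hin)), hg0 _ _ (Or.inr (Or.inr (sm2c_inF_symm hin))), add_zero]
  have h2 := sm2d_count hF D hD
  have h3 : ∑ e ∈ Fᶜ, hE H lab e = ∑ e, hE H lab e - ∑ e ∈ F, hE H lab e := by
    rw [← Finset.sum_add_sum_compl F (fun e => hE H lab e)]
    ring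
  have h4 : ∑ e ∈ F, hE H lab e ≤ F.card * H.card := by
    refine (Finset.sum_le_card_nsmul F _ _ (fun e _ => sm2d_hE_le H lab e)).trans ?_
    rw [nsmul_eq_mul]
  rw [h1, h3]
  simp only [hg]
  linarith

end Pool.Agent.HT
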